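import Mathlib

/-!
# Thin spanning trees: definitions
-/

set_option autoImplicit false
set_option linter.unusedSectionVars false

namespace Pool.Agent.J6H58.TT

open Finset

/-- A multigraph without loops, with vertex set `V` and edge set `E`: the two (different) ends of
the edge `e` are `x e` and `y e`. -/
structure MGraph (V E : Type) where
  /-- one end of the edge -/
  x : E → V
  /-- the other end of the edge -/
  y : E → V
  /-- no loops -/
  ne : ∀ e, x e ≠ y e

namespace MGraph

variable {V E : Type} [Fintype V] [DecidableEq V] [Fintype E] [DecidableEq E] (G : MGraph V E)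

/-- The edge `e` joins `u` and `v`. -/
def Joins (e : E) (u v : V) : Prop := (G.x e = u ∧ G.y e = v) ∨ (G.x e = v ∧ G.y e = u)

/-- Some edge joins `u` and `v`. -/
def Adj (u v : V) : Prop := ∃ e, G.Joins e u v

/-- No edge joins two members of `I`. -/
def Indep (I : Finset V) : Prop := ∀ u ∈ I, ∀ v ∈ I, ¬ G.Adj u v

/-- The edges with exactly one end in `A`. -/
def cut (A : Finset V) : Finset E := univ.filter fun e => ¬ (G.x e ∈ A ↔ G.y e ∈ A)

/-- Every set of vertices except the empty one and the full one is left by at least `k` edges. -/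
def EdgeConnected (k : ℕ) : Prop :=
  ∀ A : Finset V, A.Nonempty → A ≠ univ → k ≤ (G.cut A).card

/-- `T` has `|V| - 1` edges and any two vertices are joined by a path with edges in `T`. -/
def IsSpanningTree (T : Finset E) : Prop :=
  T.card + 1 = Fintype.card V ∧
    ∀ u v : V, Relation.ReflTransGen (fun a b => ∃ e ∈ T, G.Joins e a b) u v

/-- the edges with both ends in `C` -/
def ins (C : Finset V) : Finset E := univ.filter fun e => G.x e ∈ C ∧ G.y e ∈ C

/-- the edges between two sets -/
def bt (X Y : Finset V) : Finset E :=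
  univ.filter fun e => (G.x e ∈ X ∧ G.y e ∈ Y) ∨ (G.y e ∈ X ∧ G.x e ∈ Y)

/-- the edges in `F` at the vertex `v` -/
def dg (F : Finset E) (v : V) : Finset E := F.filter fun e => G.x e = v ∨ G.y e = v

/-- every nonempty union of components of `(C, F)` meets `R` -/
def Rep (C : Finset V) (F : Finset E) (R : Finset V) : Prop :=
  ∀ A ⊆ C, A.Nonempty → (∀ e ∈ F, e ∉ G.cut A) → (A ∩ R).Nonempty

variable {G}

theorem mem_cut {A : Finset V} {e : E} : e ∈ G.cut A ↔ ¬ (G.x e ∈ A ↔ G.y e ∈ A) := by
  simp [cut]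

theorem mem_ins {C : Finset V} {e : E} : e ∈ G.ins C ↔ G.x e ∈ C ∧ G.y e ∈ C := by
  simp [ins]

theorem mem_bt {X Y : Finset V} {e : E} :
    e ∈ G.bt X Y ↔ (G.x e ∈ X ∧ G.y e ∈ Y) ∨ (G.y e ∈ X ∧ G.x e ∈ Y) := by
  simp [bt]

theorem mem_dg {F : Finset E} {v : V} {e : E} :
    e ∈ G.dg F v ↔ e ∈ F ∧ (G.x e = v ∨ G.y e = v) := by
  simp [dg]

theorem Adj.symm {u v : V} (h : G.Adj u v) : G.Adj v u := by
  obtain ⟨e, he⟩ := h
  exact ⟨e, he.symm⟩

theorem not_adj_self (u : V) : ¬ G.Adj u u := by
  rintro ⟨e, h | h⟩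
  · exact G.ne e (h.1.trans h.2.symm)
  · exact G.ne e (h.1.trans h.2.symm)

theorem cut_compl (A : Finset V) : G.cut Aᶜ = G.cut A := by
  ext e
  simp only [mem_cut, mem_compl]
  tauto

/-! ### Representatives -/

theorem Rep.union {C₁ C₂ R₁ R₂ : Finset V} {F₁ F₂ : Finset E} (h₁ : G.Rep C₁ F₁ R₁)
    (h₂ : G.Rep C₂ F₂ R₂) (hF₁ : F₁ ⊆ G.ins C₁) (hF₂ : F₂ ⊆ G.ins C₂) :
    G.Rep (C₁ ∪ C₂) (F₁ ∪ F₂) (R₁ ∪ R₂) := by
  intro A hA hne hcl
  have key : ∀ (C : Finset V) (F : Finset E) (R : Finset V), G.Rep C F R → F ⊆ G.ins C →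
      F ⊆ F₁ ∪ F₂ → (A ∩ C).Nonempty → (A ∩ R).Nonempty := by
    intro C F R h hF hF' hne'
    obtain ⟨w, hw⟩ := h (A ∩ C) inter_subset_right hne' (by
      intro e he
      have h1 := mem_ins.1 (hF he)
      have h2 := hcl e (hF' he)
      rw [mem_cut] at h2 ⊢
      simp only [mem_inter, h1.1, h1.2, and_true]
      exact h2)
    simp only [mem_inter] at hw
    exact ⟨w, mem_inter.2 ⟨hw.1.1, hw.2⟩⟩
  obtain ⟨w, hw⟩ := hne
  rcases mem_union.1 (hA hw) with h | h
  · obtain ⟨z, hz⟩ := key C₁ F₁ R₁ h₁ hF₁ subset_union_left ⟨w, mem_inter.2 ⟨hw, h⟩⟩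
    rw [mem_inter] at hz
    exact ⟨z, mem_inter.2 ⟨hz.1, mem_union_left _ hz.2⟩⟩
  · obtain ⟨z, hz⟩ := key C₂ F₂ R₂ h₂ hF₂ subset_union_right ⟨w, mem_inter.2 ⟨hw, h⟩⟩
    rw [mem_inter] at hz
    exact ⟨z, mem_inter.2 ⟨hz.1, mem_union_right _ hz.2⟩⟩

/-- Adding fewer than `|R|` edges makes everything connected. -/
theorem Rep.connect (hG : ∀ A : Finset V, A.Nonempty → A ≠ univ → (G.cut A).Nonempty) :
    ∀ (m : ℕ) (F : Finset E) (R : Finset V), R.card ≤ m + 1 → G.Rep univ F R →
      ∃ X : Finset E, X.card ≤ m ∧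
        ∀ A : Finset V, A.Nonempty → A ≠ univ → ∃ e ∈ F ∪ X, e ∈ G.cut A := by
  intro m
  induction m with
  | zero =>
    intro F R hR hrep
    refine ⟨∅, by simp, ?_⟩
    intro A hA hA'
    by_contra hcon
    push Not at hcon
    have hcl : ∀ e ∈ F, e ∉ G.cut A := fun e he => hcon e (mem_union_left _ he)
    obtain ⟨r, hr⟩ := hrep A (subset_univ _) hA hcl
    obtain ⟨s, hs⟩ := hrep Aᶜ (subset_univ _) (by
      rw [nonempty_iff_ne_empty, Ne, compl_eq_empty_iff]
      exact hA') (by rw [cut_compl]; exact hcl)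
    rw [mem_inter] at hr hs
    have : r = s := card_le_one.1 hR r hr.2 s hs.2
    subst this
    exact (mem_compl.1 hs.1) hr.1
  | succ m ih =>
    intro F R hR hrep
    by_cases hcon : ∀ A : Finset V, A.Nonempty → A ≠ univ → ∃ e ∈ F, e ∈ G.cut A
    · refine ⟨∅, by simp, ?_⟩
      simpa using hcon
    · push Not at hcon
      obtain ⟨A₀, hA₀, hA₀', hcl₀⟩ := hcon
      -- a smallest closed set
      obtain ⟨A, hA, hmin⟩ := exists_min_image
        (univ.filter fun A : Finset V => A.Nonempty ∧ A ≠ univ ∧ ∀ e ∈ F, e ∉ G.cut A) card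
        ⟨A₀, by simp [hA₀, hA₀']; exact hcl₀⟩
      simp only [mem_filter, mem_univ, true_and] at hA hmin
      obtain ⟨hAne, hAu, hcl⟩ := hA
      obtain ⟨r, hr⟩ := hrep A (subset_univ _) hAne hcl
      rw [mem_inter] at hr
      obtain ⟨e, he⟩ := hG A hAne hAu
      have hrep' : G.Rep univ (insert e F) (R.erase r) := by
        intro B _ hBne hBcl
        have hBF : ∀ f ∈ F, f ∉ G.cut B := fun f hf => hBcl f (mem_insert_of_mem hf)
        have hBe : e ∉ G.cut B := hBcl e (mem_insert_self _ _)
        obtain ⟨t, ht⟩ := hrep B (subset_univ _) hBne hBF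
        rw [mem_inter] at ht
        by_cases hrB : r ∈ B
        · -- then `A ⊆ B`
          have hAB : A ⊆ B := by
            have h1 := hmin (A ∩ B) ⟨⟨r, mem_inter.2 ⟨hr.1, hrB⟩⟩, by
              intro h
              apply hAu
              rw [eq_univ_iff_forall] at h ⊢
              intro v
              exact (mem_inter.1 (h v)).1, by
              intro f hf
              have h2 := hcl f hf
              have h3 := hBF f hf
              rw [mem_cut] at h2 h3 ⊢
              simp only [mem_inter]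
              tauto⟩
            have h2 : A ∩ B = A := eq_of_subset_of_card_le inter_subset_left h1
            rw [← h2]
            exact inter_subset_right
          obtain ⟨z, hz⟩ := hrep (B \ A) (subset_univ _) (by
            rw [mem_cut] at he hBe
            by_cases hx : G.x e ∈ A
            · have hy : G.y e ∉ A := fun h => he ⟨fun _ => h, fun _ => hx⟩
              exact ⟨G.y e, mem_sdiff.2 ⟨(not_not.1 hBe).1 (hAB hx), hy⟩⟩
            · have hy : G.y e ∈ A := by
                by_contra h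
                exact he ⟨fun h' => absurd h' hx, fun h' => absurd h' h⟩
              exact ⟨G.x e, mem_sdiff.2 ⟨(not_not.1 hBe).2 (hAB hy), hx⟩⟩) (by
            intro f hf
            have h2 := hcl f hf
            have h3 := hBF f hf
            rw [mem_cut] at h2 h3 ⊢
            simp only [mem_sdiff]
            tauto)
          rw [mem_inter, mem_sdiff] at hz
          refine ⟨z, mem_inter.2 ⟨hz.1.1, mem_erase.2 ⟨?_, hz.2⟩⟩⟩
          rintro rfl
          exact hz.1.2 hr.1
        · refine ⟨t, mem_inter.2 ⟨ht.1, mem_erase.2 ⟨?_, ht.2⟩⟩⟩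
          rintro rfl
          exact hrB ht.1
      obtain ⟨X, hX, hXc⟩ := ih (insert e F) (R.erase r) (by
        rw [card_erase_of_mem hr.2]; omega) hrep'
      refine ⟨insert e X, (card_insert_le _ _).trans (by omega), ?_⟩
      intro B hB hB'
      obtain ⟨f, hf, hfc⟩ := hXc B hB hB'
      refine ⟨f, ?_, hfc⟩
      simp only [mem_union, mem_insert] at hf ⊢
      tauto

/-- a tree inside a connected set of edges -/
theorem exists_tree [Nonempty V] (S : Finset E)
    (hS : ∀ A : Finset V, A.Nonempty → A ≠ univ → ∃ e ∈ S, e ∈ G.cut A) :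
    ∃ T ⊆ S, G.IsSpanningTree T := by
  classical
  obtain ⟨r⟩ := ‹Nonempty V›
  let P : ℕ → Prop := fun m => ∃ (D : Finset V) (T : Finset E), r ∈ D ∧ T ⊆ S ∧
    T.card + 1 = D.card ∧ (∀ e ∈ T, e ∈ G.ins D) ∧
    (∀ v ∈ D, Relation.ReflTransGen (fun a b => ∃ e ∈ T, G.Joins e a b) r v) ∧ D.card = m
  have h0 : P 1 := ⟨{r}, ∅, by simp, by simp, by simp, by simp, by
    intro v hv
    rw [mem_singleton.1 hv], by simp⟩
  have hb : ∀ m, P m → m ≤ Fintype.card V := by
    rintro m ⟨D, T, -, -, -, -, -, rfl⟩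
    exact card_le_univ D
  obtain ⟨m, hm, hmax⟩ : ∃ m, P m ∧ ∀ m', P m' → m' ≤ m :=
    ⟨Nat.findGreatest P (Fintype.card V), Nat.findGreatest_spec (hb 1 h0) h0,
      fun m' h => Nat.le_findGreatest (hb m' h) h⟩
  obtain ⟨D, T, hr, hT, hcard, hins, hreach, hDm⟩ := hm
  by_cases hD : D = univ
  · subst hD
    refine ⟨T, hT, by rw [hcard, card_univ], ?_⟩
    have hsymm : ∀ u v, Relation.ReflTransGen (fun a b => ∃ e ∈ T, G.Joins e a b) u v →
        Relation.ReflTransGen (fun a b => ∃ e ∈ T, G.Joins e a b) v u := by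
      intro u v h
      induction h with
      | refl => exact Relation.ReflTransGen.refl
      | tail _ hbc ih =>
        obtain ⟨e, he, hj⟩ := hbc
        exact Relation.ReflTransGen.head ⟨e, he, hj.symm⟩ ih
    intro u v
    exact (hsymm _ _ (hreach u (mem_univ u))).trans (hreach v (mem_univ v))
  · exfalso
    obtain ⟨e, heS, hec⟩ := hS D ⟨r, hr⟩ hD
    have key : ∀ a b : V, a ∈ D → b ∉ D → G.Joins e a b → False := by
      intro a b ha hb' hj
      have hmono : ∀ {T' : Finset E}, T ⊆ T' → ∀ {u v}, 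
          Relation.ReflTransGen (fun a b => ∃ e ∈ T, G.Joins e a b) u v →
          Relation.ReflTransGen (fun a b => ∃ e ∈ T', G.Joins e a b) u v := by
        intro T' hTT u v h
        induction h with
        | refl => exact Relation.ReflTransGen.refl
        | tail _ hbc ih =>
          obtain ⟨f, hf, hj⟩ := hbc
          exact ih.tail ⟨f, hTT hf, hj⟩
      have heT : e ∉ T := by
        intro h
        have := mem_ins.1 (hins e h)
        rcases hj with ⟨h1, h2⟩ | ⟨h1, h2⟩
        · exact hb' (h2 ▸ this.2)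
        · exact hb' (h1 ▸ this.1)
      have hP : P (m + 1) := by
        refine ⟨insert b D, insert e T, mem_insert_of_mem hr, ?_, ?_, ?_, ?_, ?_⟩
        · exact insert_subset heS hT
        · rw [card_insert_of_notMem heT, card_insert_of_notMem hb', hcard]
        · intro f hf
          rcases mem_insert.1 hf with rfl | hf
          · rw [mem_ins]
            rcases hj with ⟨h1, h2⟩ | ⟨h1, h2⟩
            · rw [h1, h2]
              exact ⟨mem_insert_of_mem ha, mem_insert_self _ _⟩
            · rw [h1, h2]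
              exact ⟨mem_insert_self _ _, mem_insert_of_mem ha⟩
          · have := mem_ins.1 (hins f hf)
            exact mem_ins.2 ⟨mem_insert_of_mem this.1, mem_insert_of_mem this.2⟩
        · intro v hv
          rcases mem_insert.1 hv with rfl | hv
          · exact (hmono (subset_insert _ _) (hreach a ha)).tail ⟨e, mem_insert_self _ _, hj⟩
          · exact hmono (subset_insert _ _) (hreach v hv)
        · rw [card_insert_of_notMem hb', hDm]
      have := hmax _ hP
      omega
    rw [mem_cut] at hec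
    by_cases hx : G.x e ∈ D
    · exact key _ _ hx (fun h => hec ⟨fun _ => h, fun _ => hx⟩) (Or.inl ⟨rfl, rfl⟩)
    · have hy : G.y e ∈ D := by
        by_contra h
        exact hec ⟨fun h' => absurd h' hx, fun h' => absurd h' h⟩
      exact key _ _ hy hx (Or.inr ⟨rfl, rfl⟩)

end MGraph

end Pool.Agent.J6H58.TT
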