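import Pool.Agent.J6H58.TT.Rec

/-!
# Thin spanning trees in graphs with few independent vertices of small degree
-/

set_option autoImplicit false
set_option linter.unusedSectionVars false

namespace Pool.Agent.J6H58.TT

open Finset
open scoped Classical

/-- the inequality of Bonferroni -/
theorem bonf {ι α : Type} [DecidableEq ι] [DecidableEq α] (J : Finset ι) (f : ι → Finset α) :
    ∑ v ∈ J, (f v).card ≤ (J.biUnion f).card + ∑ v ∈ J, ∑ u ∈ J.erase v, (f v ∩ f u).card := by
  induction J using Finset.induction_on with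
  | empty => simp
  | insert v J hv ih =>
    rw [sum_insert hv, sum_insert hv, biUnion_insert, erase_insert hv]
    have h1 := card_union_add_card_inter (f v) (J.biUnion f)
    have h2 : (f v ∩ J.biUnion f).card ≤ ∑ u ∈ J, (f v ∩ f u).card := by
      rw [inter_biUnion]
      exact card_biUnion_le
    have h3 : ∑ w ∈ J, ∑ u ∈ J.erase w, (f w ∩ f u).card ≤
        ∑ w ∈ J, ∑ u ∈ (insert v J).erase w, (f w ∩ f u).card := by
      apply sum_le_sum
      intro w _
      apply sum_le_sum_of_subset
      exact erase_subset_erase _ (subset_insert _ _)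
    omega

namespace MGraph

/-- The set of the neighbours of `v`. -/
noncomputable def nbrs {V E : Type} [Fintype V] (G : MGraph V E) (v : V) : Finset V :=
  univ.filter fun w => G.Adj v w

theorem main_low (N a d : ℕ) (hN : 1 ≤ N) : ∃ k : ℕ, ∀ (V E : Type) [Fintype V] [DecidableEq V]
    [Nonempty V] [Fintype E] [DecidableEq E] (G : MGraph V E),
    (∀ I : Finset V, G.Indep I → (∀ v ∈ I, d * (G.nbrs v).card < Fintype.card V) → I.card ≤ a) →
    G.EdgeConnected k →
    ∃ T : Finset E, G.IsSpanningTree T ∧
      ∀ A : Finset V, N * (T ∩ G.cut A).card ≤ (G.cut A).card := by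
  obtain ⟨k, hk⟩ := main_far N (a + 2 * d) (4 * d * d) hN
  refine ⟨k, ?_⟩
  intro V E _ _ _ _ _ G hind hconn
  refine hk V E G ?_ hconn
  intro I hI
  have hn : 0 < Fintype.card V := Fintype.card_pos
  have hL : (I.filter fun v => d * (G.nbrs v).card < Fintype.card V).card ≤ a := by
    apply hind
    · intro u hu v hv
      by_cases huv : u = v
      · rw [huv]; exact not_adj_self v
      · exact (hI u (mem_filter.1 hu).1 v (mem_filter.1 hv).1 huv).1
    · intro v hv
      exact (mem_filter.1 hv).2
  have hH : (I.filter fun v => ¬ d * (G.nbrs v).card < Fintype.card V).card ≤ 2 * d := by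
    by_contra hcon
    rw [not_le] at hcon
    obtain ⟨J, hJ, hJc⟩ := exists_subset_card_eq
      (s := I.filter fun v => ¬ d * (G.nbrs v).card < Fintype.card V) (n := 2 * d) (by omega)
    rcases Nat.eq_zero_or_pos d with hd | hd
    · subst hd
      obtain ⟨v, hv⟩ : (I.filter fun v => ¬ 0 * (G.nbrs v).card < Fintype.card V).Nonempty := by
        rw [← card_pos]; omega
      have := (mem_filter.1 hv).2
      omega
    have hJI : J ⊆ I := fun v hv => (mem_filter.1 (hJ hv)).1
    have h1 : ∀ v ∈ J, Fintype.card V ≤ d * (G.nbrs v).card := fun v hv =>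
      not_lt.1 (mem_filter.1 (hJ hv)).2
    have h2 : 2 * d * Fintype.card V ≤ d * ∑ v ∈ J, (G.nbrs v).card := by
      rw [mul_sum]
      calc 2 * d * Fintype.card V = ∑ v ∈ J, Fintype.card V := by
            rw [sum_const, hJc, smul_eq_mul]
        _ ≤ _ := sum_le_sum h1
    have h3 : 2 * Fintype.card V ≤ ∑ v ∈ J, (G.nbrs v).card := by
      have : d * (2 * Fintype.card V) ≤ d * ∑ v ∈ J, (G.nbrs v).card := by
        calc d * (2 * Fintype.card V) = 2 * d * Fintype.card V := by ring
          _ ≤ _ := h2
      exact Nat.le_of_mul_le_mul_left this hd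
    have h4 := bonf J G.nbrs
    have h5 : (J.biUnion G.nbrs).card ≤ Fintype.card V := card_le_univ _
    have h6 : ∀ v ∈ J, ∀ u ∈ J.erase v, 4 * d * d * (G.nbrs v ∩ G.nbrs u).card ≤
        Fintype.card V := by
      intro v hv u hu
      rw [mem_erase] at hu
      have h7 := (hI v (hJI hv) u (hJI hu.2) (Ne.symm hu.1)).2
      have h8 : G.nbrs v ∩ G.nbrs u = cn G univ v u := by
        ext z
        rw [mem_inter, mem_cn]
        simp [nbrs]
      rw [h8]
      exact h7.le
    have h9 : 4 * d * d * ∑ v ∈ J, ∑ u ∈ J.erase v, (G.nbrs v ∩ G.nbrs u).card ≤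
        2 * d * ((2 * d - 1) * Fintype.card V) := by
      rw [mul_sum]
      calc ∑ v ∈ J, 4 * d * d * ∑ u ∈ J.erase v, (G.nbrs v ∩ G.nbrs u).card
          ≤ ∑ v ∈ J, (2 * d - 1) * Fintype.card V := by
            apply sum_le_sum
            intro v hv
            rw [mul_sum]
            calc ∑ u ∈ J.erase v, 4 * d * d * (G.nbrs v ∩ G.nbrs u).card
                ≤ ∑ u ∈ J.erase v, Fintype.card V := sum_le_sum (h6 v hv)
              _ = (2 * d - 1) * Fintype.card V := by
                  rw [sum_const, card_erase_of_mem hv, hJc, smul_eq_mul]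
        _ = _ := by rw [sum_const, hJc, smul_eq_mul]
    have h10 : 2 * d * ((2 * d - 1) * Fintype.card V) < 4 * d * d * Fintype.card V := by
      have h11 : 2 * d * ((2 * d - 1) * Fintype.card V) =
          (2 * d * Fintype.card V) * (2 * d - 1) := by ring
      have h12 : 4 * d * d * Fintype.card V = (2 * d * Fintype.card V) * (2 * d) := by ring
      rw [h11, h12]
      exact Nat.mul_lt_mul_of_pos_left (by omega) (by positivity)
    have h13 : ∑ v ∈ J, ∑ u ∈ J.erase v, (G.nbrs v ∩ G.nbrs u).card < Fintype.card V :=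
      Nat.lt_of_mul_lt_mul_left (lt_of_le_of_lt h9 h10)
    omega
  have := card_filter_add_card_filter_not (s := I) (fun v => d * (G.nbrs v).card < Fintype.card V)
  omega

end MGraph

end Pool.Agent.J6H58.TT
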