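import Pool.Agent.J6H58.TT.Defs

/-!
# Spanning forests of bounded degree with few components
-/

set_option autoImplicit false
set_option linter.unusedSectionVars false

namespace Pool.Agent.J6H58.TT

open Finset
open scoped Classical

namespace MGraph

variable {V E : Type} [Fintype V] [DecidableEq V] [Fintype E] [DecidableEq E] {G : MGraph V E}

/-- the common neighbours of `u` and `v` in `C` -/
noncomputable def cn (G : MGraph V E) (C : Finset V) (u v : V) : Finset V :=
  C.filter fun z => G.Adj u z ∧ G.Adj v z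

/-- Any two members of `I` are not adjacent and have less than `t` common neighbours in `C`. -/
def Far (G : MGraph V E) (C : Finset V) (t : ℕ) (I : Finset V) : Prop :=
  ∀ u ∈ I, ∀ v ∈ I, u ≠ v → ¬ G.Adj u v ∧ (cn G C u v).card < t

theorem mem_cn {C : Finset V} {u v z : V} : z ∈ cn G C u v ↔ z ∈ C ∧ G.Adj u z ∧ G.Adj v z := by
  simp [cn]

theorem sum_dg (F : Finset E) (S : Finset V) : ∑ v ∈ S, (G.dg F v).card ≤ 2 * F.card := by
  have h1 : ∀ v ∈ S, (G.dg F v).card ≤ (F.filter fun e => G.x e = v).card +
      (F.filter fun e => G.y e = v).card := by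
    intro v _
    refine le_trans (card_le_card ?_) (card_union_le _ _)
    intro e he
    rw [mem_dg] at he
    rw [mem_union, mem_filter, mem_filter]
    tauto
  have h2 : ∀ f : E → V, ∑ v ∈ S, (F.filter fun e => f e = v).card ≤ F.card := by
    intro f
    calc ∑ v ∈ S, (F.filter fun e => f e = v).card
        ≤ ∑ v, (F.filter fun e => f e = v).card :=
          sum_le_sum_of_subset (subset_univ S)
      _ = F.card := (card_eq_sum_card_fiberwise (f := f) (t := univ) (fun _ _ => mem_univ _)).symm
  calc ∑ v ∈ S, (G.dg F v).card ≤ ∑ v ∈ S, ((F.filter fun e => G.x e = v).card +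
        (F.filter fun e => G.y e = v).card) := sum_le_sum h1
    _ = ∑ v ∈ S, (F.filter fun e => G.x e = v).card +
        ∑ v ∈ S, (F.filter fun e => G.y e = v).card := sum_add_distrib
    _ ≤ F.card + F.card := add_le_add (h2 _) (h2 _)
    _ = 2 * F.card := by ring

/-- few vertices of large degree -/
theorem heavy_card (F : Finset E) (S : Finset V) (τ : ℕ) :
    τ * (S.filter fun v => τ ≤ (G.dg F v).card).card ≤ 2 * F.card := by
  calc τ * (S.filter fun v => τ ≤ (G.dg F v).card).card
      = ∑ v ∈ S.filter (fun v => τ ≤ (G.dg F v).card), τ := by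
        rw [sum_const, smul_eq_mul, mul_comm]
    _ ≤ ∑ v ∈ S.filter (fun v => τ ≤ (G.dg F v).card), (G.dg F v).card :=
        sum_le_sum fun v hv => (mem_filter.1 hv).2
    _ ≤ 2 * F.card := sum_dg F _

/-- a spanning forest -/
theorem extract {C : Finset V} {F : Finset E} {R : Finset V} (hF : F ⊆ G.ins C) (hR : R ⊆ C)
    (hrep : G.Rep C F R) : ∃ T ⊆ F, T.card + R.card = C.card ∧ G.Rep C T R := by
  classical
  let P : ℕ → Prop := fun m => ∃ (D : Finset V) (T : Finset E), R ⊆ D ∧ D ⊆ C ∧ T ⊆ F ∧
    T ⊆ G.ins D ∧ T.card + R.card = D.card ∧ G.Rep D T R ∧ D.card = m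
  have h0 : P R.card := by
    refine ⟨R, ∅, Subset.rfl, hR, by simp, by simp, by simp, ?_, rfl⟩
    intro A hA hne _
    obtain ⟨w, hw⟩ := hne
    exact ⟨w, mem_inter.2 ⟨hw, hA hw⟩⟩
  have hb : ∀ m, P m → m ≤ C.card := by
    rintro m ⟨D, T, -, hD, -, -, -, -, rfl⟩
    exact card_le_card hD
  obtain ⟨m, hm, hmax⟩ : ∃ m, P m ∧ ∀ m', P m' → m' ≤ m :=
    ⟨Nat.findGreatest P C.card, Nat.findGreatest_spec (hb _ h0) h0,
      fun m' h => Nat.le_findGreatest (hb m' h) h⟩
  obtain ⟨D, T, hRD, hDC, hTF, hTD, hcard, hrepD, hDm⟩ := hm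
  by_cases hD : D = C
  · subst hD
    exact ⟨T, hTF, hcard, hrepD⟩
  · exfalso
    have hne : (C \ D).Nonempty := by
      rw [sdiff_nonempty]
      intro h
      exact hD (hDC.antisymm h)
    have hex : ∃ e ∈ F, e ∈ G.cut (C \ D) := by
      by_contra hno
      push Not at hno
      obtain ⟨w, hw⟩ := hrep (C \ D) sdiff_subset hne hno
      rw [mem_inter, mem_sdiff] at hw
      exact hw.1.2 (hRD hw.2)
    obtain ⟨e, heF, hec⟩ := hex
    have heC := mem_ins.1 (hF heF)
    have key : ∀ a b : V, a ∈ D → b ∈ C → b ∉ D → G.Joins e a b → False := by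
      intro a b ha hbC hb' hj
      have heT : e ∉ T := by
        intro h
        have := mem_ins.1 (hTD h)
        rcases hj with ⟨h1, h2⟩ | ⟨h1, h2⟩
        · exact hb' (h2 ▸ this.2)
        · exact hb' (h1 ▸ this.1)
      have hP : P (m + 1) := by
        refine ⟨insert b D, insert e T, hRD.trans (subset_insert _ _), insert_subset hbC hDC,
          insert_subset heF hTF, ?_, ?_, ?_, ?_⟩
        · intro f hf
          rcases mem_insert.1 hf with rfl | hf
          · rw [mem_ins]
            rcases hj with ⟨h1, h2⟩ | ⟨h1, h2⟩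
            · rw [h1, h2]
              exact ⟨mem_insert_of_mem ha, mem_insert_self _ _⟩
            · rw [h1, h2]
              exact ⟨mem_insert_self _ _, mem_insert_of_mem ha⟩
          · have := mem_ins.1 (hTD hf)
            exact mem_ins.2 ⟨mem_insert_of_mem this.1, mem_insert_of_mem this.2⟩
        · rw [card_insert_of_notMem heT, card_insert_of_notMem hb', ← hcard]
          ring
        · intro A hA hAne hcl
          have h1 : (A ∩ D).Nonempty := by
            by_cases hbA : b ∈ A
            · have h3 := hcl e (mem_insert_self _ _)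
              rw [mem_cut, not_not] at h3
              refine ⟨a, mem_inter.2 ⟨?_, ha⟩⟩
              rcases hj with ⟨h1, h2⟩ | ⟨h1, h2⟩
              · rw [h1, h2] at h3
                exact h3.2 hbA
              · rw [h1, h2] at h3
                exact h3.1 hbA
            · obtain ⟨w, hw⟩ := hAne
              refine ⟨w, mem_inter.2 ⟨hw, ?_⟩⟩
              rcases mem_insert.1 (hA hw) with rfl | h
              · exact absurd hw hbA
              · exact h
          obtain ⟨w, hw⟩ := hrepD (A ∩ D) inter_subset_right h1 (by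
            intro f hf
            have h2 := hcl f (mem_insert_of_mem hf)
            have h3 := mem_ins.1 (hTD hf)
            rw [mem_cut] at h2 ⊢
            simp only [mem_inter, h3.1, h3.2, and_true]
            exact h2)
          rw [mem_inter, mem_inter] at hw
          exact ⟨w, mem_inter.2 ⟨hw.1.1, hw.2⟩⟩
        · rw [card_insert_of_notMem hb', hDm]
      have := hmax _ hP
      omega
    rw [mem_cut] at hec
    simp only [mem_sdiff, heC.1, heC.2, true_and] at hec
    by_cases hx : G.x e ∈ D
    · have hy : G.y e ∉ D := by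
        intro h
        exact hec ⟨fun h' => absurd hx h', fun h' => absurd h h'⟩
      exact key _ _ hx heC.2 hy (Or.inl ⟨rfl, rfl⟩)
    · have hy : G.y e ∈ D := by
        by_contra h
        exact hec ⟨fun _ => h, fun _ => hx⟩
      exact key _ _ hy heC.1 hx (Or.inr ⟨rfl, rfl⟩)

/-- **Spanning forests of bounded degree.** If any `a + 1` vertices of `C` contain two which are
adjacent or have at least `t` common neighbours in `C`, and `2 |C| < Δ t`, then `C` has a spanning
forest with degrees at most `Δ` and at most `a` components. -/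
theorem forest {C : Finset V} {t a Δ : ℕ} (hstar : ∀ I ⊆ C, G.Far C t I → I.card ≤ a)
    (hΔ : 2 * C.card < Δ * t) (h2 : 2 ≤ Δ) :
    ∃ (F : Finset E) (R : Finset V), F ⊆ G.ins C ∧ (∀ v, (G.dg F v).card ≤ Δ) ∧ R.card ≤ a ∧
      G.Rep C F R := by
  classical
  -- the minimal pair
  let S : Finset (Finset E × Finset V) := univ.filter fun p => p.1 ⊆ G.ins C ∧ p.2 ⊆ C ∧
    (∀ v, (G.dg p.1 v).card ≤ Δ) ∧ G.Rep C p.1 p.2
  have hS : S.Nonempty := by
    refine ⟨(∅, C), ?_⟩
    simp only [S, mem_filter, mem_univ, true_and]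
    refine ⟨by simp, Subset.rfl, by simp [dg], ?_⟩
    intro A hA hne _
    obtain ⟨w, hw⟩ := hne
    exact ⟨w, mem_inter.2 ⟨hw, hA hw⟩⟩
  obtain ⟨⟨F, R⟩, hFR, hmin⟩ := exists_min_image S
    (fun p => p.2.card * (Fintype.card E + 1) + p.1.card) hS
  simp only [S, mem_filter, mem_univ, true_and] at hFR hmin
  obtain ⟨hF, hRC, hdeg, hrep⟩ := hFR
  -- consequences of the minimality
  have hminR : ∀ (F' : Finset E) (R' : Finset V), F' ⊆ G.ins C → R' ⊆ C →
      (∀ v, (G.dg F' v).card ≤ Δ) → G.Rep C F' R' → R.card ≤ R'.card := by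
    intro F' R' h1 h2 h3 h4
    have h5 := hmin (F', R') ⟨h1, h2, h3, h4⟩
    simp only at h5
    have h6 : F'.card ≤ Fintype.card E := card_le_univ F'
    by_contra h7
    have h8 : (R'.card + 1) * (Fintype.card E + 1) ≤ R.card * (Fintype.card E + 1) :=
      Nat.mul_le_mul_right _ (by omega)
    have h9 : (R'.card + 1) * (Fintype.card E + 1) =
      R'.card * (Fintype.card E + 1) + (Fintype.card E + 1) := by ring
    omega
  have hminF : ∀ F' : Finset E, F' ⊆ G.ins C → (∀ v, (G.dg F' v).card ≤ Δ) → G.Rep C F' R →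
      F.card ≤ F'.card := by
    intro F' h1 h3 h4
    have h5 := hmin (F', R) ⟨h1, hRC, h3, h4⟩
    simp only at h5
    omega
  have hdgm : ∀ {F' F'' : Finset E} (v : V), F' ⊆ F'' → (G.dg F' v).card ≤ (G.dg F'' v).card := by
    intro F' F'' v h
    apply card_le_card
    intro e he
    rw [mem_dg] at he ⊢
    exact ⟨h he.1, he.2⟩
  refine ⟨F, R, hF, hdeg, ?_, hrep⟩
  by_contra hRa
  push Not at hRa
  -- the number of edges
  have hFC : F.card ≤ C.card := by
    obtain ⟨T, hT, hTc, hTr⟩ := extract hF hRC hrep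
    have := hminF T (hT.trans hF) (fun v => (hdgm v hT).trans (hdeg v)) hTr
    omega
  -- components
  have hcomp : ∀ r ∈ R, ∃ K ⊆ C, r ∈ K ∧ (∀ e ∈ F, e ∉ G.cut K) ∧
      ∀ B ⊆ C, r ∈ B → (∀ e ∈ F, e ∉ G.cut B) → K ⊆ B := by
    intro r hr
    obtain ⟨K, hK, hKm⟩ := exists_min_image
      (univ.filter fun K : Finset V => K ⊆ C ∧ r ∈ K ∧ ∀ e ∈ F, e ∉ G.cut K) card
      ⟨C, by
        simp only [mem_filter, mem_univ, true_and]
        refine ⟨Subset.rfl, hRC hr, ?_⟩
        intro e he
        have := mem_ins.1 (hF he)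
        rw [mem_cut]
        tauto⟩
    simp only [mem_filter, mem_univ, true_and] at hK hKm
    refine ⟨K, hK.1, hK.2.1, hK.2.2, ?_⟩
    intro B hB hrB hBcl
    have h1 := hKm (K ∩ B) ⟨inter_subset_left.trans hK.1, mem_inter.2 ⟨hK.2.1, hrB⟩, by
      intro f hf
      have h2 := hK.2.2 f hf
      have h3 := hBcl f hf
      rw [mem_cut] at h2 h3 ⊢
      simp only [mem_inter]
      tauto⟩
    have h2 : K ∩ B = K := eq_of_subset_of_card_le inter_subset_left h1
    rw [← h2]
    exact inter_subset_right
  choose! K hKC hrK hKcl hKmin using hcomp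
  have hsd : ∀ {A B : Finset V}, (∀ e ∈ F, e ∉ G.cut A) → (∀ e ∈ F, e ∉ G.cut B) →
      ∀ e ∈ F, e ∉ G.cut (A \ B) := by
    intro A B hA hB e he
    have h2 := hA e he
    have h3 := hB e he
    rw [mem_cut] at h2 h3 ⊢
    simp only [mem_sdiff]
    tauto
  have hin : ∀ {A B : Finset V}, (∀ e ∈ F, e ∉ G.cut A) → (∀ e ∈ F, e ∉ G.cut B) →
      ∀ e ∈ F, e ∉ G.cut (A ∩ B) := by
    intro A B hA hB e he
    have h2 := hA e he
    have h3 := hB e he
    rw [mem_cut] at h2 h3 ⊢
    simp only [mem_inter]
    tauto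
  have hKR : ∀ r ∈ R, ∀ r' ∈ R, r' ∈ K r → r' = r := by
    intro r hr r' hr' hr'K
    by_contra hne
    have h1 : G.Rep C F (R.erase r') := by
      intro B hB hBne hBcl
      obtain ⟨z, hz⟩ := hrep B hB hBne hBcl
      rw [mem_inter] at hz
      by_cases hzr : z = r'
      · subst hzr
        refine ⟨r, mem_inter.2 ⟨?_, mem_erase.2 ⟨fun h => hne h.symm, hr⟩⟩⟩
        by_contra hrB
        have h2 := hKmin r hr (K r \ B) (sdiff_subset.trans (hKC r hr))
          (mem_sdiff.2 ⟨hrK r hr, hrB⟩) (hsd (hKcl r hr) hBcl)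
        exact (mem_sdiff.1 (h2 hr'K)).2 hz.1
      · exact ⟨z, mem_inter.2 ⟨hz.1, mem_erase.2 ⟨hzr, hz.2⟩⟩⟩
    have h2 := hminR F (R.erase r') hF ((erase_subset _ _).trans hRC) hdeg h1
    rw [card_erase_of_mem hr'] at h2
    have h3 : 0 < R.card := card_pos.2 ⟨r', hr'⟩
    omega
  have hKdis : ∀ r ∈ R, ∀ r' ∈ R, r ≠ r' → Disjoint (K r) (K r') := by
    intro r hr r' hr' hne
    rw [disjoint_iff_inter_eq_empty]
    by_contra h
    obtain ⟨z, hz⟩ := hrep (K r ∩ K r') (inter_subset_left.trans (hKC r hr))
      (nonempty_iff_ne_empty.2 h) (hin (hKcl r hr) (hKcl r' hr'))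
    rw [mem_inter, mem_inter] at hz
    exact hne ((hKR r hr z hz.2 hz.1.1).symm.trans (hKR r' hr' z hz.2 hz.1.2))
  -- every component has a vertex of degree less than `Δ`
  have huns : ∀ r ∈ R, ∃ v ∈ K r, (G.dg F v).card < Δ := by
    intro r hr
    by_contra hno
    push Not at hno
    have hFK : F ∩ G.ins (K r) ⊆ G.ins (K r) := inter_subset_right
    obtain ⟨T, hT, hTc, hTr⟩ := extract (G := G) (C := K r) (F := F ∩ G.ins (K r)) (R := {r}) hFK
      (singleton_subset_iff.2 (hrK r hr)) (by
        intro A hA hAne hAcl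
        have hAcl' : ∀ e ∈ F, e ∉ G.cut A := by
          intro e he
          by_cases h : e ∈ G.ins (K r)
          · exact hAcl e (mem_inter.2 ⟨he, h⟩)
          · have h1 := hKcl r hr e he
            rw [mem_ins] at h
            rw [mem_cut] at h1 ⊢
            have h3 : G.x e ∉ K r := by tauto
            have h4 : G.y e ∉ K r := by tauto
            have h5 : G.x e ∉ A := fun h => h3 (hA h)
            have h6 : G.y e ∉ A := fun h => h4 (hA h)
            tauto
        obtain ⟨z, hz⟩ := hrep A (hA.trans (hKC r hr)) hAne hAcl'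
        rw [mem_inter] at hz
        refine ⟨z, mem_inter.2 ⟨hz.1, ?_⟩⟩
        rw [mem_singleton]
        exact hKR r hr z hz.2 (hA hz.1))
    -- many edges in the component
    have hmany : (K r).card ≤ (F ∩ G.ins (K r)).card := by
      have h1 : ∑ v ∈ K r, (G.dg (F ∩ G.ins (K r)) v).card ≤ 2 * (F ∩ G.ins (K r)).card :=
        sum_dg _ _
      have h3 : ∀ v ∈ K r, 2 ≤ (G.dg (F ∩ G.ins (K r)) v).card := by
        intro v hv
        refine (h2.trans (hno v hv)).trans (card_le_card ?_)
        intro e he
        rw [mem_dg] at he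
        rw [mem_dg, mem_inter]
        refine ⟨⟨he.1, ?_⟩, he.2⟩
        have h4 := hKcl r hr e he.1
        rw [mem_cut, not_not] at h4
        rw [mem_ins]
        rcases he.2 with h | h
        · rw [h] at h4
          rw [h]
          exact ⟨hv, h4.1 hv⟩
        · rw [h] at h4
          rw [h]
          exact ⟨h4.2 hv, hv⟩
      have h4 : ∑ v ∈ K r, 2 ≤ ∑ v ∈ K r, (G.dg (F ∩ G.ins (K r)) v).card := sum_le_sum h3
      rw [sum_const, smul_eq_mul] at h4
      omega
    rw [card_singleton] at hTc
    have hFsub : (F \ G.ins (K r)) ∪ T ⊆ F := by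
      apply union_subset sdiff_subset
      exact hT.trans inter_subset_left
    have hrep' : G.Rep C ((F \ G.ins (K r)) ∪ T) R := by
      intro B hB hBne hBcl
      by_cases hBK : (B ∩ K r).Nonempty
      · obtain ⟨z, hz⟩ := hTr (B ∩ K r) inter_subset_right hBK (by
          intro e he
          have h5 := hBcl e (mem_union_right _ he)
          have h6 := mem_ins.1 (hFK (hT he))
          rw [mem_cut] at h5 ⊢
          simp only [mem_inter, h6.1, h6.2, and_true]
          exact h5)
        rw [mem_inter, mem_inter, mem_singleton] at hz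
        exact ⟨z, mem_inter.2 ⟨hz.1.1, hz.2 ▸ hr⟩⟩
      · apply hrep B hB hBne
        intro e he
        by_cases h : e ∈ G.ins (K r)
        · rw [mem_ins] at h
          rw [not_nonempty_iff_eq_empty] at hBK
          rw [mem_cut, not_not]
          have h5 : G.x e ∉ B := fun h' => by
            have : G.x e ∈ B ∩ K r := mem_inter.2 ⟨h', h.1⟩
            rw [hBK] at this
            simp at this
          have h6 : G.y e ∉ B := fun h' => by
            have : G.y e ∈ B ∩ K r := mem_inter.2 ⟨h', h.2⟩
            rw [hBK] at this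
            simp at this
          tauto
        · exact hBcl e (mem_union_left _ (mem_sdiff.2 ⟨he, h⟩))
    have h5 := hminF _ (hFsub.trans hF) (fun v => (hdgm v hFsub).trans (hdeg v)) hrep'
    have h6 : ((F \ G.ins (K r)) ∪ T).card ≤ (F \ G.ins (K r)).card + T.card := card_union_le _ _
    have h7 : (F \ G.ins (K r)).card + (F ∩ G.ins (K r)).card = F.card :=
      card_sdiff_add_card_inter _ _
    omega
  -- merging two components
  have merge : ∀ r ∈ R, ∀ u ∈ K r, ∀ z ∈ C, z ∉ K r → (G.dg F u).card < Δ →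
      (G.dg F z).card < Δ → ¬ G.Adj u z := by
    rintro r hr u hu z hzC hzK hdu hdz ⟨e, he⟩
    have hsub : ∀ v, G.dg (insert e F) v ⊆ insert e (G.dg F v) := by
      intro v f hf
      rw [mem_dg, mem_insert] at hf
      rw [mem_insert, mem_dg]
      tauto
    have hdeg' : ∀ v, (G.dg (insert e F) v).card ≤ Δ := by
      intro v
      by_cases hvu : v = u
      · rw [hvu]
        exact (card_le_card (hsub u)).trans ((card_insert_le _ _).trans (by omega))
      · by_cases hvz : v = z
        · rw [hvz]
          exact (card_le_card (hsub z)).trans ((card_insert_le _ _).trans (by omega))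
        · have : G.dg (insert e F) v ⊆ G.dg F v := by
            intro f hf
            rw [mem_dg, mem_insert] at hf
            rw [mem_dg]
            rcases hf with ⟨hfe | hf, h⟩
            · exfalso
              rw [hfe] at h
              rcases he with ⟨h1, h2⟩ | ⟨h1, h2⟩
              · rcases h with h | h
                · exact hvu (h.symm.trans h1)
                · exact hvz (h.symm.trans h2)
              · rcases h with h | h
                · exact hvz (h.symm.trans h1)
                · exact hvu (h.symm.trans h2)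
            · exact ⟨hf, h⟩
          exact (card_le_card this).trans (hdeg v)
    have hF' : insert e F ⊆ G.ins C := by
      apply insert_subset _ hF
      rw [mem_ins]
      rcases he with ⟨h1, h2⟩ | ⟨h1, h2⟩
      · rw [h1, h2]; exact ⟨hKC r hr hu, hzC⟩
      · rw [h1, h2]; exact ⟨hzC, hKC r hr hu⟩
    have hrep' : G.Rep C (insert e F) (R.erase r) := by
      intro B hB hBne hBcl
      have hBF : ∀ f ∈ F, f ∉ G.cut B := fun f hf => hBcl f (mem_insert_of_mem hf)
      by_cases hrB : r ∈ B
      · have hKB := hKmin r hr B hB hrB hBF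
        have hzB : z ∈ B := by
          have h1 := hBcl e (mem_insert_self _ _)
          rw [mem_cut, not_not] at h1
          rcases he with ⟨h2, h3⟩ | ⟨h2, h3⟩
          · rw [h2, h3] at h1; exact h1.1 (hKB hu)
          · rw [h2, h3] at h1; exact h1.2 (hKB hu)
        obtain ⟨w, hw⟩ := hrep (B \ K r) (sdiff_subset.trans hB) ⟨z, mem_sdiff.2 ⟨hzB, hzK⟩⟩
          (hsd hBF (hKcl r hr))
        rw [mem_inter, mem_sdiff] at hw
        refine ⟨w, mem_inter.2 ⟨hw.1.1, mem_erase.2 ⟨?_, hw.2⟩⟩⟩
        intro h
        rw [h] at hw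
        exact hw.1.2 (hrK r hr)
      · obtain ⟨w, hw⟩ := hrep B hB hBne hBF
        rw [mem_inter] at hw
        refine ⟨w, mem_inter.2 ⟨hw.1, mem_erase.2 ⟨?_, hw.2⟩⟩⟩
        intro h
        rw [h] at hw
        exact hrB hw.1
    have h1 := hminR _ _ hF' ((erase_subset _ _).trans hRC) hdeg' hrep'
    rw [card_erase_of_mem hr] at h1
    have h3 : 0 < R.card := card_pos.2 ⟨r, hr⟩
    omega
  -- the representatives
  choose! v hvK hvd using huns
  have hinj : Set.InjOn v R := by
    intro r hr r' hr' h
    by_contra hne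
    have h1 := hKdis r hr r' hr' hne
    rw [disjoint_left] at h1
    exact h1 (hvK r hr) (h ▸ hvK r' hr')
  have hcardI : (R.image v).card = R.card := card_image_of_injOn hinj
  have hnot : ¬ G.Far C t (R.image v) := by
    intro h
    have := hstar _ (by
      intro w hw
      obtain ⟨r, hr, rfl⟩ := mem_image.1 hw
      exact hKC r hr (hvK r hr)) h
    omega
  unfold Far at hnot
  push Not at hnot
  obtain ⟨u, hu, w, hw, huw, hclose⟩ := hnot
  obtain ⟨r, hr, rfl⟩ := mem_image.1 hu
  obtain ⟨r', hr', rfl⟩ := mem_image.1 hw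
  have hrr : r ≠ r' := fun h => huw (by rw [h])
  have hdis := hKdis r hr r' hr' hrr
  rw [disjoint_left] at hdis
  by_cases hadj : G.Adj (v r) (v r')
  · exact merge r hr (v r) (hvK r hr) (v r') (hKC r' hr' (hvK r' hr'))
      (fun h => hdis h (hvK r' hr')) (hvd r hr) (hvd r' hr') hadj
  · have ht := hclose hadj
    -- an unsaturated common neighbour
    have hsat := heavy_card (G := G) F C Δ
    have hex : ∃ z ∈ cn G C (v r) (v r'), (G.dg F z).card < Δ := by
      by_contra hno
      push Not at hno
      have h1 : cn G C (v r) (v r') ⊆ C.filter fun z => Δ ≤ (G.dg F z).card := by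
        intro z hz
        rw [mem_filter]
        exact ⟨(mem_cn.1 hz).1, hno z hz⟩
      have h3 := card_le_card h1
      have h4 : Δ * t ≤ Δ * (C.filter fun z => Δ ≤ (G.dg F z).card).card :=
        Nat.mul_le_mul_left _ (ht.trans h3)
      omega
    obtain ⟨z, hz, hzd⟩ := hex
    rw [mem_cn] at hz
    by_cases hzK : z ∈ K r
    · exact merge r' hr' (v r') (hvK r' hr') z hz.1 (fun h => hdis hzK h) (hvd r' hr') hzd hz.2.2
    · exact merge r hr (v r) (hvK r hr) z hz.1 hzK (hvd r hr) hzd hz.2.1

end MGraph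

end Pool.Agent.J6H58.TT
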