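import Pool.Agent.J6H58.TT.Defs

/-!
# Thin spanning trees in graphs of bounded independence number
-/

set_option autoImplicit false
set_option linter.unusedSectionVars false

namespace Pool.Agent.J6H58.TT

open Finset

namespace MGraph

variable {V E : Type} [Fintype V] [DecidableEq V] [Fintype E] [DecidableEq E] {G : MGraph V E}

/-- a longest path that cannot be prolonged at its end `u` -/
theorem exists_path {C : Finset V} (hC : C.Nonempty) :
    ∃ (D : Finset V) (F : Finset E) (u : V), D ⊆ C ∧ u ∈ D ∧ F ⊆ G.ins D ∧
      (∀ v, (G.dg F v).card ≤ 2) ∧ G.Rep D F {u} ∧ ∀ w ∈ C \ D, ¬ G.Adj u w := by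
  classical
  let P : ℕ → Prop := fun m => ∃ (D : Finset V) (F : Finset E) (u : V), D ⊆ C ∧ u ∈ D ∧
      F ⊆ G.ins D ∧ (∀ v, (G.dg F v).card ≤ 2) ∧ (G.dg F u).card ≤ 1 ∧ G.Rep D F {u} ∧
      D.card = m
  have h0 : P 1 := by
    obtain ⟨u, hu⟩ := hC
    refine ⟨{u}, ∅, u, by simpa, by simp, by simp, by simp [dg], by simp [dg], ?_, by simp⟩
    intro A hA hne _
    obtain ⟨w, hw⟩ := hne
    exact ⟨w, mem_inter.2 ⟨hw, hA hw⟩⟩
  have hb : ∀ m, P m → m ≤ C.card := by
    rintro m ⟨D, F, u, hD, -, -, -, -, -, rfl⟩
    exact card_le_card hD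
  obtain ⟨m, hm, hmax⟩ : ∃ m, P m ∧ ∀ m', P m' → m' ≤ m :=
    ⟨Nat.findGreatest P C.card, Nat.findGreatest_spec (hb 1 h0) h0,
      fun m' h => Nat.le_findGreatest (hb m' h) h⟩
  obtain ⟨D, F, u, hD, hu, hF, hdeg, hdu, hrep, hcard⟩ := hm
  refine ⟨D, F, u, hD, hu, hF, hdeg, hrep, ?_⟩
  rintro w hw ⟨e, he⟩
  rw [mem_sdiff] at hw
  have hsub : ∀ v, G.dg (insert e F) v ⊆ insert e (G.dg F v) := by
    intro v f hf
    rw [mem_dg, mem_insert] at hf
    rw [mem_insert, mem_dg]
    tauto
  have hP : P (m + 1) := by
    refine ⟨insert w D, insert e F, w, insert_subset hw.1 hD, mem_insert_self _ _, ?_, ?_, ?_, ?_,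
      ?_⟩
    · intro f hf
      rw [mem_ins]
      rcases mem_insert.1 hf with rfl | hf
      · rcases he with ⟨h1, h2⟩ | ⟨h1, h2⟩
        · rw [h1, h2]
          exact ⟨mem_insert_of_mem hu, mem_insert_self _ _⟩
        · rw [h1, h2]
          exact ⟨mem_insert_self _ _, mem_insert_of_mem hu⟩
      · have := mem_ins.1 (hF hf)
        exact ⟨mem_insert_of_mem this.1, mem_insert_of_mem this.2⟩
    · intro v
      by_cases hvu : v = u
      · subst hvu
        exact (card_le_card (hsub v)).trans ((card_insert_le _ _).trans (by omega))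
      · by_cases hvw : v = w
        · subst hvw
          have : G.dg F v = ∅ := by
            rw [eq_empty_iff_forall_notMem]
            intro f hf
            rw [mem_dg] at hf
            have h1 := mem_ins.1 (hF hf.1)
            rcases hf.2 with h | h
            · exact hw.2 (h ▸ h1.1)
            · exact hw.2 (h ▸ h1.2)
          have h2 := card_le_card (hsub v)
          rw [this] at h2
          exact h2.trans (by simp)
        · have : G.dg (insert e F) v ⊆ G.dg F v := by
            intro f hf
            rw [mem_dg, mem_insert] at hf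
            rw [mem_dg]
            rcases hf with ⟨rfl | hf, h⟩
            · exfalso
              rcases he with ⟨h1, h2⟩ | ⟨h1, h2⟩
              · rcases h with h | h
                · exact hvu (h.symm.trans h1)
                · exact hvw (h.symm.trans h2)
              · rcases h with h | h
                · exact hvw (h.symm.trans h1)
                · exact hvu (h.symm.trans h2)
            · exact ⟨hf, h⟩
          exact (card_le_card this).trans (hdeg v)
    · have : G.dg F w = ∅ := by
        rw [eq_empty_iff_forall_notMem]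
        intro f hf
        rw [mem_dg] at hf
        have h1 := mem_ins.1 (hF hf.1)
        rcases hf.2 with h | h
        · exact hw.2 (h ▸ h1.1)
        · exact hw.2 (h ▸ h1.2)
      have h2 := card_le_card (hsub w)
      rw [this] at h2
      exact h2.trans (by simp)
    · intro A hA hne hcl
      by_cases hwA : w ∈ A
      · exact ⟨w, mem_inter.2 ⟨hwA, mem_singleton_self _⟩⟩
      · exfalso
        have hAD : A ⊆ D := by
          intro v hv
          rcases mem_insert.1 (hA hv) with rfl | h
          · exact absurd hv hwA
          · exact h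
        obtain ⟨z, hz⟩ := hrep A hAD hne (fun f hf => hcl f (mem_insert_of_mem hf))
        rw [mem_inter, mem_singleton] at hz
        obtain ⟨hz, rfl⟩ := hz
        have h3 := hcl e (mem_insert_self _ _)
        rw [mem_cut, not_not] at h3
        rcases he with ⟨h1, h2⟩ | ⟨h1, h2⟩
        · rw [h1, h2] at h3
          exact hwA (h3.1 hz)
        · rw [h1, h2] at h3
          exact hwA (h3.2 hz)
    · rw [card_insert_of_notMem hw.2, hcard]
  have := hmax _ hP
  omega

/-- covering by few paths -/
theorem path_cover : ∀ (a : ℕ) (C : Finset V), (∀ I ⊆ C, G.Indep I → I.card ≤ a) →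
    ∃ (F : Finset E) (R : Finset V), F ⊆ G.ins C ∧ (∀ v, (G.dg F v).card ≤ 2) ∧ R.card ≤ a ∧
      G.Rep C F R := by
  intro a
  induction a with
  | zero =>
    intro C hC
    have hC0 : C = ∅ := by
      rw [eq_empty_iff_forall_notMem]
      intro v hv
      have := hC {v} (singleton_subset_iff.2 hv) (by
        intro a ha b hb
        rw [mem_singleton.1 ha, mem_singleton.1 hb]
        exact not_adj_self v)
      simp at this
    subst hC0
    refine ⟨∅, ∅, by simp, by simp [dg], by simp, ?_⟩
    intro A hA hne _
    rw [subset_empty.1 hA] at hne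
    exact absurd hne (by simp)
  | succ a ih =>
    intro C hC
    rcases C.eq_empty_or_nonempty with rfl | hne
    · refine ⟨∅, ∅, by simp, by simp [dg], by simp, ?_⟩
      intro A hA hne _
      rw [subset_empty.1 hA] at hne
      exact absurd hne (by simp)
    · obtain ⟨D, F, u, hD, hu, hF, hdeg, hrep, hadj⟩ := exists_path (G := G) hne
      obtain ⟨F', R', hF', hdeg', hR', hrep'⟩ := ih (C \ D) (by
        intro I hI hind
        have huI : u ∉ I := fun h => (mem_sdiff.1 (hI h)).2 hu
        have := hC (insert u I) (by
          intro v hv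
          rcases mem_insert.1 hv with rfl | hv
          · exact hD hu
          · exact (mem_sdiff.1 (hI hv)).1) (by
          intro v hv w hw
          rcases mem_insert.1 hv with hv1 | hv1
          · rcases mem_insert.1 hw with hw1 | hw1
            · rw [hv1, hw1]; exact not_adj_self _
            · rw [hv1]; exact hadj w (hI hw1)
          · rcases mem_insert.1 hw with hw1 | hw1
            · rw [hw1]; exact fun h => hadj v (hI hv1) h.symm
            · exact hind v hv1 w hw1)
        rw [card_insert_of_notMem huI] at this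
        omega)
      refine ⟨F ∪ F', {u} ∪ R', ?_, ?_, ?_, ?_⟩
      · intro f hf
        rw [mem_ins]
        rcases mem_union.1 hf with hf | hf
        · have := mem_ins.1 (hF hf)
          exact ⟨hD this.1, hD this.2⟩
        · have := mem_ins.1 (hF' hf)
          exact ⟨(mem_sdiff.1 this.1).1, (mem_sdiff.1 this.2).1⟩
      · intro v
        by_cases hv : v ∈ D
        · have : G.dg (F ∪ F') v ⊆ G.dg F v := by
            intro f hf
            rw [mem_dg, mem_union] at hf
            rw [mem_dg]
            rcases hf with ⟨hf | hf, h⟩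
            · exact ⟨hf, h⟩
            · exfalso
              have h1 := mem_ins.1 (hF' hf)
              rw [mem_sdiff, mem_sdiff] at h1
              rcases h with h | h
              · exact h1.1.2 (h ▸ hv)
              · exact h1.2.2 (h ▸ hv)
          exact (card_le_card this).trans (hdeg v)
        · have : G.dg (F ∪ F') v ⊆ G.dg F' v := by
            intro f hf
            rw [mem_dg, mem_union] at hf
            rw [mem_dg]
            rcases hf with ⟨hf | hf, h⟩
            · exfalso
              have h1 := mem_ins.1 (hF hf)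
              rcases h with h | h
              · exact hv (h ▸ h1.1)
              · exact hv (h ▸ h1.2)
            · exact ⟨hf, h⟩
          exact (card_le_card this).trans (hdeg' v)
      · exact (card_union_le _ _).trans (by rw [card_singleton]; omega)
      · have := hrep.union hrep' hF hF'
        rw [union_sdiff_of_subset hD] at this
        exact this

/-- few edges of a set with degrees at most two in a cut -/
theorem card_le_two_mul {C : Finset V} {F : Finset E} (hF : F ⊆ G.ins C)
    (hdeg : ∀ v, (G.dg F v).card ≤ 2) (A : Finset V) :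
    (F ∩ G.cut A).card ≤ 2 * (A ∩ C).card := by
  have h1 : F ∩ G.cut A ⊆ (A ∩ C).biUnion (fun v => G.dg F v) := by
    intro e he
    rw [mem_inter, mem_cut] at he
    have h2 := mem_ins.1 (hF he.1)
    rw [mem_biUnion]
    by_cases hx : G.x e ∈ A
    · exact ⟨G.x e, mem_inter.2 ⟨hx, h2.1⟩, mem_dg.2 ⟨he.1, Or.inl rfl⟩⟩
    · have hy : G.y e ∈ A := by
        by_contra h
        exact he.2 ⟨fun h' => absurd h' hx, fun h' => absurd h' h⟩
      exact ⟨G.y e, mem_inter.2 ⟨hy, h2.2⟩, mem_dg.2 ⟨he.1, Or.inr rfl⟩⟩
  calc (F ∩ G.cut A).card ≤ ((A ∩ C).biUnion (fun v => G.dg F v)).card := card_le_card h1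
    _ ≤ ∑ v ∈ A ∩ C, (G.dg F v).card := card_biUnion_le
    _ ≤ ∑ v ∈ A ∩ C, 2 := sum_le_sum fun v _ => hdeg v
    _ = 2 * (A ∩ C).card := by rw [sum_const, smul_eq_mul, mul_comm]

/-- either few vertices can be deleted to lower the independence number, or there are many
edges -/
theorem separate {a c : ℕ} {B B' : Finset V} (hdis : Disjoint B B')
    (hind : ∀ I ⊆ B ∪ B', G.Indep I → I.card ≤ a + 1)
    (hfew : (G.bt B B').card < c * B'.card) :
    ∃ X ⊆ B, X.card ≤ (c - 1) * (a + 1) ∧ ∀ I ⊆ B \ X, G.Indep I → I.card ≤ a := by
  by_contra hcon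
  push Not at hcon
  have key : ∀ j ≤ c, ∃ X ⊆ B, X.card = j * (a + 1) ∧ j * B'.card ≤ (G.bt X B').card := by
    intro j
    induction j with
    | zero =>
      intro _
      exact ⟨∅, by simp, by simp, by simp⟩
    | succ j ih =>
      intro hj
      obtain ⟨X, hX, hXc, hXe⟩ := ih (by omega)
      obtain ⟨I, hI, hIind, hIc⟩ := hcon X hX (by
        rw [hXc]
        exact Nat.mul_le_mul_right _ (by omega))
      obtain ⟨J, hJI, hJc⟩ := exists_subset_card_eq (s := I) (n := a + 1) (by omega)
      have hJX : Disjoint X J := by
        rw [disjoint_left]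
        intro v hv hvJ
        exact (mem_sdiff.1 (hI (hJI hvJ))).2 hv
      have hJB : J ⊆ B := fun v hv => (mem_sdiff.1 (hI (hJI hv))).1
      refine ⟨X ∪ J, union_subset hX hJB, ?_, ?_⟩
      · rw [card_union_of_disjoint hJX, hXc, hJc]
        ring
      · have hbtU : G.bt X B' ∪ G.bt J B' ⊆ G.bt (X ∪ J) B' := by
          intro e he
          rw [mem_union, mem_bt, mem_bt] at he
          rw [mem_bt]
          simp only [mem_union]
          tauto
        have hbtd : Disjoint (G.bt X B') (G.bt J B') := by
          rw [disjoint_left]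
          intro e he he'
          rw [mem_bt] at he he'
          rw [disjoint_left] at hJX hdis
          rcases he with h | h
          · rcases he' with h' | h'
            · exact hJX h.1 h'.1
            · exact hdis (hX h.1) h'.2
          · rcases he' with h' | h'
            · exact hdis (hX h.1) h'.2
            · exact hJX h.1 h'.1
        have hJ : B'.card ≤ (G.bt J B').card := by
          -- every vertex of `B'` has a neighbour in `J`
          have h1 : ∀ v ∈ B', ∃ e, ∃ w ∈ J, G.Joins e w v := by
            intro v hv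
            by_contra hno
            push Not at hno
            have hvJ : v ∉ J := fun h => disjoint_left.1 hdis (hJB h) hv
            have := hind (insert v J) (by
              intro w hw
              rcases mem_insert.1 hw with rfl | hw
              · exact mem_union_right _ hv
              · exact mem_union_left _ (hJB hw)) (by
              intro p hp q hq
              rcases mem_insert.1 hp with hp1 | hp1
              · rcases mem_insert.1 hq with hq1 | hq1
                · rw [hp1, hq1]; exact not_adj_self _
                · rw [hp1]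
                  rintro ⟨e, he⟩
                  exact hno e q hq1 he.symm
              · rcases mem_insert.1 hq with hq1 | hq1
                · rw [hq1]
                  rintro ⟨e, he⟩
                  exact hno e p hp1 he
                · exact hIind p (hJI hp1) q (hJI hq1))
            rw [card_insert_of_notMem hvJ, hJc] at this
            omega
          rcases B'.eq_empty_or_nonempty with hB0 | ⟨v₀, hv₀⟩
          · rw [hB0]; simp
          have : Nonempty E := ⟨(h1 v₀ hv₀).choose⟩
          choose! f hf using h1
          have hfe : ∀ v ∈ B', (G.x (f v) ∈ J ∧ G.y (f v) = v) ∨ (G.x (f v) = v ∧ G.y (f v) ∈ J) := by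
            intro v hv
            obtain ⟨w, hw, h | h⟩ := hf v hv
            · left; rw [h.1, h.2]; exact ⟨hw, rfl⟩
            · right; rw [h.1, h.2]; exact ⟨rfl, hw⟩
          apply card_le_card_of_injOn f
          · intro v hv
            have hv' : v ∈ B' := hv
            rw [mem_coe, mem_bt]
            rcases hfe v hv' with h | h
            · left; rw [h.2]; exact ⟨h.1, hv'⟩
            · right; rw [h.1]; exact ⟨h.2, hv'⟩
          · intro v hv w hw hvw
            have hv' : v ∈ B' := hv
            have hw' : w ∈ B' := hw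
            rw [disjoint_left] at hdis
            rcases hfe v hv' with h | h
            · rcases hfe w hw' with h' | h'
              · rw [← h.2, ← h'.2, hvw]
              · exfalso
                rw [hvw, h'.1] at h
                exact hdis (hJB h.1) hw'
            · rcases hfe w hw' with h' | h'
              · exfalso
                rw [hvw, h'.2] at h
                exact hdis (hJB h.2) hw'
              · rw [← h.1, ← h'.1, hvw]
        calc (j + 1) * B'.card = j * B'.card + B'.card := by ring
          _ ≤ (G.bt X B').card + (G.bt J B').card := add_le_add hXe hJ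
          _ = (G.bt X B' ∪ G.bt J B').card := (card_union_of_disjoint hbtd).symm
          _ ≤ _ := card_le_card hbtU
  obtain ⟨X, hX, -, hXe⟩ := key c le_rfl
  have : (G.bt X B').card ≤ (G.bt B B').card := by
    apply card_le_card
    intro e he
    rw [mem_bt] at he ⊢
    rcases he with h | h
    · exact Or.inl ⟨hX h.1, h.2⟩
    · exact Or.inr ⟨hX h.1, h.2⟩
  omega

/-- `C` is covered by at most `g` connected pieces forming a thin set of edges -/
def Dec (G : MGraph V E) (M : ℕ) (C : Finset V) (g : ℕ) : Prop :=
  ∃ (F : Finset E) (R : Finset V), F ⊆ G.ins C ∧ R.card ≤ g ∧ G.Rep C F R ∧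
    ∀ A : Finset V, M * (F ∩ G.cut A).card ≤ (G.ins C ∩ G.cut A).card

theorem Dec.union {M g₁ g₂ : ℕ} {C₁ C₂ : Finset V} (h₁ : Dec G M C₁ g₁) (h₂ : Dec G M C₂ g₂)
    (hd : Disjoint C₁ C₂) : Dec G M (C₁ ∪ C₂) (g₁ + g₂) := by
  obtain ⟨F₁, R₁, hF₁, hR₁, hrep₁, ht₁⟩ := h₁
  obtain ⟨F₂, R₂, hF₂, hR₂, hrep₂, ht₂⟩ := h₂
  refine ⟨F₁ ∪ F₂, R₁ ∪ R₂, ?_, (card_union_le _ _).trans (add_le_add hR₁ hR₂),
    hrep₁.union hrep₂ hF₁ hF₂, ?_⟩
  · intro e he
    rw [mem_ins]
    rcases mem_union.1 he with he | he
    · have := mem_ins.1 (hF₁ he)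
      exact ⟨mem_union_left _ this.1, mem_union_left _ this.2⟩
    · have := mem_ins.1 (hF₂ he)
      exact ⟨mem_union_right _ this.1, mem_union_right _ this.2⟩
  · intro A
    have hdis : Disjoint (G.ins C₁ ∩ G.cut A) (G.ins C₂ ∩ G.cut A) := by
      rw [disjoint_left] at hd ⊢
      intro e he he'
      rw [mem_inter, mem_ins] at he he'
      exact hd he.1.1 he'.1.1
    calc M * ((F₁ ∪ F₂) ∩ G.cut A).card
        ≤ M * ((F₁ ∩ G.cut A).card + (F₂ ∩ G.cut A).card) := by
          apply Nat.mul_le_mul_left
          rw [union_inter_distrib_right]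
          exact card_union_le _ _
      _ = M * (F₁ ∩ G.cut A).card + M * (F₂ ∩ G.cut A).card := by ring
      _ ≤ (G.ins C₁ ∩ G.cut A).card + (G.ins C₂ ∩ G.cut A).card := add_le_add (ht₁ A) (ht₂ A)
      _ = ((G.ins C₁ ∩ G.cut A) ∪ (G.ins C₂ ∩ G.cut A)).card :=
          (card_union_of_disjoint hdis).symm
      _ ≤ _ := by
          apply card_le_card
          intro e he
          simp only [mem_union, mem_inter, mem_ins] at he ⊢
          tauto

theorem Dec.mono {M g g' : ℕ} {C : Finset V} (h : Dec G M C g) (hg : g ≤ g') : Dec G M C g' := by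
  obtain ⟨F, R, hF, hR, hrep, ht⟩ := h
  exact ⟨F, R, hF, hR.trans hg, hrep, ht⟩

theorem dec_single (M : ℕ) (C : Finset V) : Dec G M C C.card := by
  refine ⟨∅, C, by simp, le_rfl, ?_, by simp⟩
  intro A hA hne _
  obtain ⟨w, hw⟩ := hne
  exact ⟨w, mem_inter.2 ⟨hw, hA hw⟩⟩

/-- the number of pieces -/
def gg (c : ℕ) : ℕ → ℕ
  | 0 => 0
  | a + 1 => 2 * gg c a + 2 * ((c - 1) * (a + 1))

theorem dec_main {M c : ℕ} (hM : 1 ≤ M) (hc : c = 2 * M) : ∀ (a : ℕ) (C : Finset V),
    (∀ I ⊆ C, G.Indep I → I.card ≤ a) → Dec G M C (gg c a) := by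
  intro a
  induction a with
  | zero =>
    intro C hC
    have hC0 : C = ∅ := by
      rw [eq_empty_iff_forall_notMem]
      intro v hv
      have := hC {v} (singleton_subset_iff.2 hv) (by
        intro a ha b hb
        rw [mem_singleton.1 ha, mem_singleton.1 hb]
        exact not_adj_self v)
      simp at this
    subst hC0
    exact (dec_single M ∅).mono (by simp)
  | succ a ih =>
    intro C hC
    by_cases hexp : ∀ B ⊆ C, c * min B.card (C \ B).card ≤ (G.ins C ∩ G.cut B).card
    · -- expanding
      obtain ⟨F, R, hF, hdeg, hR, hrep⟩ := path_cover (G := G) (a + 1) C hC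
      refine ⟨F, R, hF, hR.trans ?_, hrep, ?_⟩
      · have h1 : 1 ≤ c - 1 := by omega
        have h2 : a + 1 ≤ (c - 1) * (a + 1) := Nat.le_mul_of_pos_left _ (by omega)
        simp only [gg]
        omega
      · intro A
        have h1 := card_le_two_mul hF hdeg A
        have h2 := card_le_two_mul hF hdeg Aᶜ
        rw [cut_compl] at h2
        have h3 : Aᶜ ∩ C = C \ (A ∩ C) := by
          ext v
          simp only [mem_inter, mem_compl, mem_sdiff]
          tauto
        rw [h3] at h2
        have h4 := hexp (A ∩ C) inter_subset_right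
        have h5 : G.ins C ∩ G.cut (A ∩ C) = G.ins C ∩ G.cut A := by
          ext e
          simp only [mem_inter, mem_ins, mem_cut]
          tauto
        rw [h5] at h4
        refine le_trans ?_ h4
        rw [hc]
        have h6 : (F ∩ G.cut A).card ≤ 2 * min (A ∩ C).card (C \ (A ∩ C)).card := by
          rcases le_total (A ∩ C).card (C \ (A ∩ C)).card with h | h
          · rw [min_eq_left h]; exact h1
          · rw [min_eq_right h]; exact h2
        calc M * (F ∩ G.cut A).card ≤ M * (2 * min (A ∩ C).card (C \ (A ∩ C)).card) :=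
              Nat.mul_le_mul_left _ h6
          _ = 2 * M * min (A ∩ C).card (C \ (A ∩ C)).card := by ring
    · push Not at hexp
      obtain ⟨B, hB, hfew⟩ := hexp
      have hd : Disjoint B (C \ B) := disjoint_sdiff
      have hU : B ∪ C \ B = C := union_sdiff_of_subset hB
      have hbt : G.bt B (C \ B) ⊆ G.ins C ∩ G.cut B := by
        intro e he
        rw [mem_bt] at he
        simp only [mem_inter, mem_ins, mem_cut]
        simp only [mem_sdiff] at he
        rcases he with h | h
        · exact ⟨⟨hB h.1, h.2.1⟩, fun h' => h.2.2 (h'.1 h.1)⟩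
        · exact ⟨⟨h.2.1, hB h.1⟩, fun h' => h.2.2 (h'.2 h.1)⟩
      have hbt' : G.bt (C \ B) B = G.bt B (C \ B) := by
        ext e
        simp only [mem_bt]
        tauto
      have hcard := card_le_card hbt
      obtain ⟨X, hX, hXc, hXi⟩ := separate (G := G) (a := a) (c := c) hd (by rw [hU]; exact hC)
        (lt_of_le_of_lt hcard (lt_of_lt_of_le hfew (Nat.mul_le_mul_left _ (min_le_right _ _))))
      obtain ⟨Y, hY, hYc, hYi⟩ := separate (G := G) (a := a) (c := c) hd.symm
        (by rw [union_comm, hU]; exact hC)
        (by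
          rw [hbt']
          exact lt_of_le_of_lt hcard (lt_of_lt_of_le hfew (Nat.mul_le_mul_left _ (min_le_left _ _))))
      have hdX : Dec G M (B \ X ∪ X) (gg c a + X.card) :=
        (ih _ hXi).union (dec_single M X) sdiff_disjoint
      have hdY : Dec G M ((C \ B) \ Y ∪ Y) (gg c a + Y.card) :=
        (ih _ hYi).union (dec_single M Y) sdiff_disjoint
      rw [sdiff_union_of_subset hX] at hdX
      rw [sdiff_union_of_subset hY] at hdY
      have := hdX.union hdY hd
      rw [hU] at this
      refine this.mono ?_
      simp only [gg]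
      omega

theorem gg_eq (c a : ℕ) : gg c a + 2 * (c - 1) * (a + 2) = 2 * (c - 1) * 2 ^ (a + 1) := by
  induction a with
  | zero => simp [gg]
  | succ a ih =>
    simp only [gg]
    have : 2 * gg c a + 2 * (2 * (c - 1) * (a + 2)) = 2 * (2 * (c - 1) * 2 ^ (a + 1)) := by
      rw [← ih]; ring
    have h2 : 2 * (c - 1) * 2 ^ (a + 1 + 1) = 2 * (2 * (c - 1) * 2 ^ (a + 1)) := by ring
    rw [h2, ← this]
    ring

theorem main (N a : ℕ) (hN : 1 ≤ N) [Nonempty V] (hind : ∀ I : Finset V, G.Indep I → I.card ≤ a)
    (hk : G.EdgeConnected (2 * N * gg (4 * N) a)) :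
    ∃ T : Finset E, G.IsSpanningTree T ∧
      ∀ A : Finset V, N * (T ∩ G.cut A).card ≤ (G.cut A).card := by
  obtain ⟨F, R, hF, hR, hrep, ht⟩ := dec_main (G := G) (M := 2 * N) (c := 4 * N) (by omega)
    (by ring) a univ (fun I _ h => hind I h)
  have hRne : R.Nonempty := by
    obtain ⟨r, hr⟩ := hrep univ (subset_univ _) univ_nonempty (by
      intro e _
      rw [mem_cut]
      simp)
    exact ⟨r, (mem_inter.1 hr).2⟩
  have hg : 1 ≤ gg (4 * N) a := le_trans (card_pos.2 hRne) hR
  have hconn : ∀ A : Finset V, A.Nonempty → A ≠ univ → (G.cut A).Nonempty := by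
    intro A hA hA'
    rw [← card_pos]
    refine lt_of_lt_of_le ?_ (hk A hA hA')
    positivity
  obtain ⟨X, hX, hXc⟩ := MGraph.Rep.connect hconn (R.card - 1) F R (by omega) hrep
  obtain ⟨T, hT, htree⟩ := exists_tree (G := G) (F ∪ X) hXc
  refine ⟨T, htree, ?_⟩
  intro A
  by_cases hA : A.Nonempty ∧ A ≠ univ
  · have h1 := ht A
    have h2 := hk A hA.1 hA.2
    have h3 : (T ∩ G.cut A).card ≤ (F ∩ G.cut A).card + X.card := by
      calc (T ∩ G.cut A).card ≤ ((F ∩ G.cut A) ∪ X).card := by
            apply card_le_card
            intro e he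
            rw [mem_inter] at he
            rcases mem_union.1 (hT he.1) with h | h
            · exact mem_union_left _ (mem_inter.2 ⟨h, he.2⟩)
            · exact mem_union_right _ h
        _ ≤ _ := card_union_le _ _
    have h4 : (G.ins univ ∩ G.cut A).card ≤ (G.cut A).card := card_le_card inter_subset_right
    have h5 : X.card ≤ gg (4 * N) a := by omega
    have h6 : 2 * N * X.card ≤ 2 * N * gg (4 * N) a := Nat.mul_le_mul_left _ h5
    have h7 : 2 * N * (T ∩ G.cut A).card ≤ 2 * N * (F ∩ G.cut A).card + 2 * N * X.card := by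
      rw [← mul_add]
      exact Nat.mul_le_mul_left _ h3
    have h8 : 2 * (N * (T ∩ G.cut A).card) = 2 * N * (T ∩ G.cut A).card := by ring
    omega
  · have : G.cut A = ∅ := by
      rw [eq_empty_iff_forall_notMem]
      intro e he
      rw [mem_cut] at he
      by_cases h : A.Nonempty
      · have h' : A = univ := by
          by_contra h'
          exact hA ⟨h, h'⟩
        subst h'
        simp at he
      · rw [not_nonempty_iff_eq_empty] at h
        subst h
        simp at he
    rw [this]
    simp

end MGraph

end Pool.Agent.J6H58.TT
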