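import Pool.Agent.J6H58.TT.Forest

/-!
# Thin spanning trees in graphs without many vertices which are pairwise far
-/

set_option autoImplicit false
set_option linter.unusedSectionVars false

namespace Pool.Agent.J6H58.TT

open Finset
open scoped Classical

namespace MGraph

variable {V E : Type} [Fintype V] [DecidableEq V] [Fintype E] [DecidableEq E] {G : MGraph V E}

/-- few edges of a set with degrees at most `Δ` in a cut -/
theorem card_le_mul {C : Finset V} {F : Finset E} {Δ : ℕ} (hF : F ⊆ G.ins C)
    (hdeg : ∀ v, (G.dg F v).card ≤ Δ) (A : Finset V) :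
    (F ∩ G.cut A).card ≤ Δ * (A ∩ C).card := by
  have h1 : F ∩ G.cut A ⊆ (A ∩ C).biUnion (fun v => G.dg F v) := by
    intro e he
    rw [mem_inter, mem_cut] at he
    have h2 := mem_ins.1 (hF he.1)
    rw [mem_biUnion]
    by_cases hx : G.x e ∈ A
    · exact ⟨G.x e, mem_inter.2 ⟨hx, h2.1⟩, mem_dg.2 ⟨he.1, Or.inl rfl⟩⟩
    · have hy : G.y e ∈ A := by
        by_contra h
        exact he.2 ⟨fun h' => absurd h' hx, fun h' => absurd h' h⟩
      exact ⟨G.y e, mem_inter.2 ⟨hy, h2.2⟩, mem_dg.2 ⟨he.1, Or.inr rfl⟩⟩
  calc (F ∩ G.cut A).card ≤ ((A ∩ C).biUnion (fun v => G.dg F v)).card := card_le_card h1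
    _ ≤ ∑ v ∈ A ∩ C, (G.dg F v).card := card_biUnion_le
    _ ≤ ∑ v ∈ A ∩ C, Δ := sum_le_sum fun v _ => hdeg v
    _ = Δ * (A ∩ C).card := by rw [sum_const, smul_eq_mul, mul_comm]

/-- the neighbours across -/
theorem cross_nbr {B B' : Finset V} {v : V} (hv : v ∈ B) :
    (B'.filter fun z => G.Adj v z).card ≤ (G.dg (G.bt B B') v).card := by
  have h : ∀ z ∈ B'.filter (fun z => G.Adj v z), ∃ e, G.Joins e v z := fun z hz =>
    (mem_filter.1 hz).2
  rcases (B'.filter fun z => G.Adj v z).eq_empty_or_nonempty with h0 | ⟨z₀, hz₀⟩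
  · rw [h0]; simp
  have : Nonempty E := ⟨(h z₀ hz₀).choose⟩
  choose! f hf using h
  apply card_le_card_of_injOn f
  · intro z hz
    have hz' : z ∈ B'.filter (fun z => G.Adj v z) := hz
    have h1 := hf z hz'
    have h2 := (mem_filter.1 hz').1
    rw [mem_coe, mem_dg, mem_bt]
    rcases h1 with ⟨h3, h4⟩ | ⟨h3, h4⟩
    · rw [h3, h4]; exact ⟨Or.inl ⟨hv, h2⟩, Or.inl rfl⟩
    · rw [h3, h4]; exact ⟨Or.inr ⟨hv, h2⟩, Or.inr rfl⟩
  · intro z hz w hw hzw
    have hz' : z ∈ B'.filter (fun z => G.Adj v z) := hz
    have hw' : w ∈ B'.filter (fun z => G.Adj v z) := hw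
    have h1 := hf z hz'
    have h2 := hf w hw'
    rw [hzw] at h1
    rcases h1 with ⟨h3, h4⟩ | ⟨h3, h4⟩
    · rcases h2 with ⟨h5, h6⟩ | ⟨h5, h6⟩
      · exact h4.symm.trans h6
      · exact absurd (h3.trans h6.symm) (G.ne _)
    · rcases h2 with ⟨h5, h6⟩ | ⟨h5, h6⟩
      · exact absurd (h5.trans h4.symm) (G.ne _)
      · exact h3.symm.trans h5

theorem cn_comm {C : Finset V} {u v : V} : cn G C u v = cn G C v u := by
  ext z
  rw [mem_cn, mem_cn]
  tauto

/-- either few vertices can be deleted to lower the rank, or there are many edges -/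
theorem separate2 {C : Finset V} {t a m : ℕ} {B B' : Finset V} (hdis : Disjoint B B')
    (hB : B ⊆ C) (hB' : B' ⊆ C) (hind : ∀ I ⊆ C, G.Far C t I → I.card ≤ a + 1)
    (hcross : ∀ u ∈ B, ∀ v ∈ B', ¬ G.Adj u v → (cn G C u v).card < t)
    (hfew : (G.bt B B').card < m * B'.card) :
    ∃ X ⊆ B, X.card ≤ (m - 1) * (a + 1) ∧ ∀ I ⊆ B \ X, G.Far C t I → I.card ≤ a := by
  by_contra hcon
  push Not at hcon
  have key : ∀ j ≤ m, ∃ X ⊆ B, X.card = j * (a + 1) ∧ j * B'.card ≤ (G.bt X B').card := by
    intro j
    induction j with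
    | zero =>
      intro _
      exact ⟨∅, by simp, by simp, by simp⟩
    | succ j ih =>
      intro hj
      obtain ⟨X, hX, hXc, hXe⟩ := ih (by omega)
      obtain ⟨I, hI, hIind, hIc⟩ := hcon X hX (by
        rw [hXc]
        exact Nat.mul_le_mul_right _ (by omega))
      obtain ⟨J, hJI, hJc⟩ := exists_subset_card_eq (s := I) (n := a + 1) (by omega)
      have hJX : Disjoint X J := by
        rw [disjoint_left]
        intro v hv hvJ
        exact (mem_sdiff.1 (hI (hJI hvJ))).2 hv
      have hJB : J ⊆ B := fun v hv => (mem_sdiff.1 (hI (hJI hv))).1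
      refine ⟨X ∪ J, union_subset hX hJB, ?_, ?_⟩
      · rw [card_union_of_disjoint hJX, hXc, hJc]
        ring
      · have hbtU : G.bt X B' ∪ G.bt J B' ⊆ G.bt (X ∪ J) B' := by
          intro e he
          rw [mem_union, mem_bt, mem_bt] at he
          rw [mem_bt]
          simp only [mem_union]
          tauto
        have hbtd : Disjoint (G.bt X B') (G.bt J B') := by
          rw [disjoint_left]
          intro e he he'
          rw [mem_bt] at he he'
          rw [disjoint_left] at hJX hdis
          rcases he with h | h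
          · rcases he' with h' | h'
            · exact hJX h.1 h'.1
            · exact hdis (hX h.1) h'.2
          · rcases he' with h' | h'
            · exact hdis (hX h.1) h'.2
            · exact hJX h.1 h'.1
        have hJ : B'.card ≤ (G.bt J B').card := by
          -- every vertex of `B'` has a neighbour in `J`
          have h1 : ∀ v ∈ B', ∃ e, ∃ w ∈ J, G.Joins e w v := by
            intro v hv
            by_contra hno
            push Not at hno
            have hvJ : v ∉ J := fun h => disjoint_left.1 hdis (hJB h) hv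
            have hnadj : ∀ q ∈ J, ¬ G.Adj q v := by
              rintro q hq ⟨e, he⟩
              exact hno e q hq he
            have := hind (insert v J) (by
              intro w hw
              rcases mem_insert.1 hw with rfl | hw
              · exact hB' hv
              · exact hB (hJB hw)) (by
              intro p hp q hq hpq
              rcases mem_insert.1 hp with hp1 | hp1
              · rcases mem_insert.1 hq with hq1 | hq1
                · exact absurd (hp1.trans hq1.symm) hpq
                · rw [hp1, cn_comm]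
                  exact ⟨fun h => hnadj q hq1 h.symm, hcross q (hJB hq1) v hv (hnadj q hq1)⟩
              · rcases mem_insert.1 hq with hq1 | hq1
                · rw [hq1]
                  exact ⟨hnadj p hp1, hcross p (hJB hp1) v hv (hnadj p hp1)⟩
                · exact hIind p (hJI hp1) q (hJI hq1) hpq)
            rw [card_insert_of_notMem hvJ, hJc] at this
            omega
          rcases B'.eq_empty_or_nonempty with hB0 | ⟨v₀, hv₀⟩
          · rw [hB0]; simp
          have : Nonempty E := ⟨(h1 v₀ hv₀).choose⟩
          choose! f hf using h1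
          have hfe : ∀ v ∈ B', (G.x (f v) ∈ J ∧ G.y (f v) = v) ∨ (G.x (f v) = v ∧ G.y (f v) ∈ J) := by
            intro v hv
            obtain ⟨w, hw, h | h⟩ := hf v hv
            · left; rw [h.1, h.2]; exact ⟨hw, rfl⟩
            · right; rw [h.1, h.2]; exact ⟨rfl, hw⟩
          apply card_le_card_of_injOn f
          · intro v hv
            have hv' : v ∈ B' := hv
            rw [mem_coe, mem_bt]
            rcases hfe v hv' with h | h
            · left; rw [h.2]; exact ⟨h.1, hv'⟩
            · right; rw [h.1]; exact ⟨h.2, hv'⟩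
          · intro v hv w hw hvw
            have hv' : v ∈ B' := hv
            have hw' : w ∈ B' := hw
            rw [disjoint_left] at hdis
            rcases hfe v hv' with h | h
            · rcases hfe w hw' with h' | h'
              · rw [← h.2, ← h'.2, hvw]
              · exfalso
                rw [hvw, h'.1] at h
                exact hdis (hJB h.1) hw'
            · rcases hfe w hw' with h' | h'
              · exfalso
                rw [hvw, h'.2] at h
                exact hdis (hJB h.2) hw'
              · rw [← h.1, ← h'.1, hvw]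
        calc (j + 1) * B'.card = j * B'.card + B'.card := by ring
          _ ≤ (G.bt X B').card + (G.bt J B').card := add_le_add hXe hJ
          _ = (G.bt X B' ∪ G.bt J B').card := (card_union_of_disjoint hbtd).symm
          _ ≤ _ := card_le_card hbtU
  obtain ⟨X, hX, -, hXe⟩ := key m le_rfl
  have : (G.bt X B').card ≤ (G.bt B B').card := by
    apply card_le_card
    intro e he
    rw [mem_bt] at he ⊢
    rcases he with h | h
    · exact Or.inl ⟨hX h.1, h.2⟩
    · exact Or.inr ⟨hX h.1, h.2⟩
  omega

/-- `C` is covered by at most `g` connected pieces forming a thin set of edges, up to an error -/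
def DecE (G : MGraph V E) (M : ℕ) (C : Finset V) (g er : ℕ) : Prop :=
  ∃ (F : Finset E) (R : Finset V), F ⊆ G.ins C ∧ R.card ≤ g ∧ G.Rep C F R ∧
    ∀ A : Finset V, M * (F ∩ G.cut A).card ≤ (G.ins C ∩ G.cut A).card + er

theorem DecE.union {M g₁ g₂ r₁ r₂ : ℕ} {C₁ C₂ : Finset V} (h₁ : DecE G M C₁ g₁ r₁)
    (h₂ : DecE G M C₂ g₂ r₂) (hd : Disjoint C₁ C₂) :
    DecE G M (C₁ ∪ C₂) (g₁ + g₂) (r₁ + r₂) := by
  obtain ⟨F₁, R₁, hF₁, hR₁, hrep₁, ht₁⟩ := h₁
  obtain ⟨F₂, R₂, hF₂, hR₂, hrep₂, ht₂⟩ := h₂
  refine ⟨F₁ ∪ F₂, R₁ ∪ R₂, ?_, (card_union_le _ _).trans (add_le_add hR₁ hR₂),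
    hrep₁.union hrep₂ hF₁ hF₂, ?_⟩
  · intro e he
    rw [mem_ins]
    rcases mem_union.1 he with he | he
    · have := mem_ins.1 (hF₁ he)
      exact ⟨mem_union_left _ this.1, mem_union_left _ this.2⟩
    · have := mem_ins.1 (hF₂ he)
      exact ⟨mem_union_right _ this.1, mem_union_right _ this.2⟩
  · intro A
    have hdis : Disjoint (G.ins C₁ ∩ G.cut A) (G.ins C₂ ∩ G.cut A) := by
      rw [disjoint_left] at hd ⊢
      intro e he he'
      rw [mem_inter, mem_ins] at he he'
      exact hd he.1.1 he'.1.1
    have h3 : ((G.ins C₁ ∩ G.cut A) ∪ (G.ins C₂ ∩ G.cut A)).card ≤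
        (G.ins (C₁ ∪ C₂) ∩ G.cut A).card := by
      apply card_le_card
      intro e he
      simp only [mem_union, mem_inter, mem_ins] at he ⊢
      tauto
    rw [card_union_of_disjoint hdis] at h3
    have h4 : M * ((F₁ ∪ F₂) ∩ G.cut A).card
        ≤ M * (F₁ ∩ G.cut A).card + M * (F₂ ∩ G.cut A).card := by
      rw [← mul_add]
      apply Nat.mul_le_mul_left
      rw [union_inter_distrib_right]
      exact card_union_le _ _
    have h5 := ht₁ A
    have h6 := ht₂ A
    omega

theorem DecE.mono {M g g' r r' : ℕ} {C : Finset V} (h : DecE G M C g r) (hg : g ≤ g')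
    (hr : r ≤ r') : DecE G M C g' r' := by
  obtain ⟨F, R, hF, hR, hrep, ht⟩ := h
  exact ⟨F, R, hF, hR.trans hg, hrep, fun A => (ht A).trans (by omega)⟩

theorem decE_single (M : ℕ) (C : Finset V) : DecE G M C C.card 0 := by
  refine ⟨∅, C, by simp, le_rfl, ?_, by simp⟩
  intro A hA hne _
  obtain ⟨w, hw⟩ := hne
  exact ⟨w, mem_inter.2 ⟨hw, hA hw⟩⟩

/-- the number of pieces -/
def gE (c P : ℕ) : ℕ → ℕ
  | 0 => 0
  | a + 1 => 2 * gE c P a + (c * P + 2 * ((2 * c - 1) * (a + 1)))

/-- the error -/
def eE (c P : ℕ) : ℕ → ℕ
  | 0 => 0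
  | a + 1 => 2 * eE c P a + c * (2 * (c * P))

theorem rec_main {M P s c Δ : ℕ} (hM : 1 ≤ M) (hP : 1 ≤ P) (hΔ : Δ = 2 * P + 1)
    (hc : c = M * Δ) : ∀ (a : ℕ) (C : Finset V), C.card ≤ P * s →
    (∀ I ⊆ C, G.Far C (4 * (2 ^ a * s)) I → I.card ≤ a) → c * P + (2 * c - 1) * a ≤ s →
    DecE G M C (gE c P a) (eE c P a) := by
  have hc1 : 1 ≤ c := by rw [hc, hΔ]; exact Nat.one_le_iff_ne_zero.2 (by positivity)
  intro a
  induction a with
  | zero =>
    intro C _ hC _
    have hC0 : C = ∅ := by
      rw [eq_empty_iff_forall_notMem]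
      intro v hv
      have := hC {v} (singleton_subset_iff.2 hv) (by
        intro a ha b hb hab
        exact absurd ((mem_singleton.1 ha).trans (mem_singleton.1 hb).symm) hab)
      simp at this
    subst hC0
    exact (decE_single M ∅).mono (by simp) (by simp)
  | succ a ih =>
    intro C hCs hC hs
    have hs1 : 1 ≤ s := by
      have : 1 ≤ c * P := Nat.one_le_iff_ne_zero.2 (by positivity)
      omega
    set τ := 2 ^ (a + 1) * s with hτ
    have hτs : s ≤ τ := Nat.le_mul_of_pos_left _ (by positivity)
    by_cases hexp : ∀ B ⊆ C, 2 * (c * P) ≤ B.card → 2 * (c * P) ≤ (C \ B).card →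
        c * min B.card (C \ B).card ≤ (G.ins C ∩ G.cut B).card
    · -- expanding
      obtain ⟨F, R, hF, hdeg, hR, hrep⟩ := forest (G := G) (C := C) (t := 4 * τ) (a := a + 1)
        (Δ := Δ) hC (by
          have h1 : 2 * C.card ≤ 2 * P * s := by
            calc 2 * C.card ≤ 2 * (P * s) := Nat.mul_le_mul_left _ hCs
              _ = 2 * P * s := by ring
          have h2 : 2 * P * s < Δ * s := by
            rw [hΔ]
            exact Nat.mul_lt_mul_of_pos_right (by omega) (by omega)
          have h3 : Δ * s ≤ Δ * (4 * τ) := Nat.mul_le_mul_left _ (by omega)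
          omega) (by omega)
      refine ⟨F, R, hF, hR.trans ?_, hrep, ?_⟩
      · have h2 : a + 1 ≤ (2 * c - 1) * (a + 1) := Nat.le_mul_of_pos_left _ (by omega)
        simp only [gE]
        omega
      · intro A
        have h1 := card_le_mul hF hdeg A
        have h2 := card_le_mul hF hdeg Aᶜ
        rw [cut_compl] at h2
        have h3 : Aᶜ ∩ C = C \ (A ∩ C) := by
          ext v
          simp only [mem_inter, mem_compl, mem_sdiff]
          tauto
        rw [h3] at h2
        have h5 : G.ins C ∩ G.cut (A ∩ C) = G.ins C ∩ G.cut A := by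
          ext e
          simp only [mem_inter, mem_ins, mem_cut]
          tauto
        have h6 : M * (F ∩ G.cut A).card ≤ c * min (A ∩ C).card (C \ (A ∩ C)).card := by
          rw [hc, mul_assoc]
          apply Nat.mul_le_mul_left
          rcases le_total (A ∩ C).card (C \ (A ∩ C)).card with h | h
          · rw [min_eq_left h]; exact h1
          · rw [min_eq_right h]; exact h2
        by_cases hbig : 2 * (c * P) ≤ (A ∩ C).card ∧ 2 * (c * P) ≤ (C \ (A ∩ C)).card
        · have h4 := hexp (A ∩ C) inter_subset_right hbig.1 hbig.2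
          rw [h5] at h4
          omega
        · have h7 : min (A ∩ C).card (C \ (A ∩ C)).card ≤ 2 * (c * P) := by
            rw [min_le_iff]
            omega
          have h8 := Nat.mul_le_mul_left c h7
          simp only [eE]
          omega
    · push Not at hexp
      obtain ⟨B, hB, hK1, hK2, hfew⟩ := hexp
      have hd : Disjoint B (C \ B) := disjoint_sdiff
      have hU : B ∪ C \ B = C := union_sdiff_of_subset hB
      have hbt : G.bt B (C \ B) ⊆ G.ins C ∩ G.cut B := by
        intro e he
        rw [mem_bt] at he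
        simp only [mem_inter, mem_ins, mem_cut]
        simp only [mem_sdiff] at he
        rcases he with h | h
        · exact ⟨⟨hB h.1, h.2.1⟩, fun h' => h.2.2 (h'.1 h.1)⟩
        · exact ⟨⟨h.2.1, hB h.1⟩, fun h' => h.2.2 (h'.2 h.1)⟩
      have hbtc : ∀ X Y : Finset V, G.bt X Y = G.bt Y X := by
        intro X Y
        ext e
        simp only [mem_bt]
        tauto
      have hbt1 : (G.bt B (C \ B)).card < c * min B.card (C \ B).card :=
        lt_of_le_of_lt (card_le_card hbt) hfew
      -- the heavy vertices
      set H := C.filter (fun v => τ ≤ (G.dg (G.bt B (C \ B)) v).card) with hH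
      have hHc : H.card ≤ c * P := by
        have h1 := heavy_card (G := G) (G.bt B (C \ B)) C τ
        rw [← hH] at h1
        have h2 : 2 * min B.card (C \ B).card ≤ C.card := by
          have h3 : B.card + (C \ B).card = C.card := by
            rw [← card_union_of_disjoint hd, hU]
          omega
        have h4 : 2 * (c * min B.card (C \ B).card) ≤ c * (P * s) := by
          calc 2 * (c * min B.card (C \ B).card) = c * (2 * min B.card (C \ B).card) := by ring
            _ ≤ c * (P * s) := Nat.mul_le_mul_left _ (h2.trans hCs)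
        have h5 : c * (P * s) ≤ τ * (c * P) := by
          calc c * (P * s) = s * (c * P) := by ring
            _ ≤ τ * (c * P) := Nat.mul_le_mul_right _ hτs
        have h6 : τ * H.card ≤ τ * (c * P) := by omega
        exact Nat.le_of_mul_le_mul_left h6 (by omega)
      have hlight : ∀ v ∈ C, v ∉ H → (G.dg (G.bt B (C \ B)) v).card < τ := by
        intro v hv hvH
        by_contra h
        exact hvH (mem_filter.2 ⟨hv, not_lt.1 h⟩)
      -- neighbours across of vertices which are not heavy
      have hnb : ∀ v ∈ B \ H, ((C \ B).filter fun z => G.Adj v z).card < τ := by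
        intro v hv
        rw [mem_sdiff] at hv
        exact lt_of_le_of_lt (cross_nbr hv.1) (hlight v (hB hv.1) hv.2)
      have hnb' : ∀ v ∈ (C \ B) \ H, (B.filter fun z => G.Adj v z).card < τ := by
        intro v hv
        rw [mem_sdiff] at hv
        have h1 := cross_nbr (G := G) (B := C \ B) (B' := B) hv.1
        rw [hbtc (C \ B) B] at h1
        exact lt_of_le_of_lt h1 (hlight v (mem_sdiff.1 hv.1).1 hv.2)
      have hcross : ∀ u ∈ B \ H, ∀ v ∈ (C \ B) \ H, (cn G C u v).card < 4 * τ := by
        intro u hu v hv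
        have h1 : cn G C u v ⊆ ((C \ B).filter fun z => G.Adj u z) ∪
            (B.filter fun z => G.Adj v z) := by
          intro z hz
          rw [mem_cn] at hz
          rw [mem_union, mem_filter, mem_filter, mem_sdiff]
          by_cases hzB : z ∈ B
          · exact Or.inr ⟨hzB, hz.2.2⟩
          · exact Or.inl ⟨⟨hz.1, hzB⟩, hz.2.1⟩
        have h2 := (card_le_card h1).trans (card_union_le _ _)
        have h3 := hnb u hu
        have h4 := hnb' v hv
        omega
      have hhalf : ∀ S : Finset V, 2 * (c * P) ≤ S.card → S.card ≤ 2 * (S \ H).card := by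
        intro S hS
        have h1 : S.card ≤ (S \ H).card + H.card := by
          have := card_le_card_sdiff_add_card (s := S) (t := H)
          omega
        omega
      have hfew' : ∀ S S' : Finset V, S ⊆ B → S' ⊆ C \ B →
          (G.bt S S').card ≤ (G.bt B (C \ B)).card := by
        intro S S' hS hS'
        apply card_le_card
        intro e he
        rw [mem_bt] at he ⊢
        rcases he with h | h
        · exact Or.inl ⟨hS h.1, hS' h.2⟩
        · exact Or.inr ⟨hS h.1, hS' h.2⟩
      have hd0 : Disjoint (B \ H) ((C \ B) \ H) :=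
        disjoint_of_subset_left sdiff_subset (disjoint_of_subset_right sdiff_subset hd)
      obtain ⟨X, hX, hXc, hXi⟩ := separate2 (G := G) (C := C) (t := 4 * τ) (a := a) (m := 2 * c)
        hd0 (sdiff_subset.trans hB) (sdiff_subset.trans sdiff_subset) hC
        (fun u hu v hv _ => hcross u hu v hv) (by
          have h1 := hfew' (B \ H) ((C \ B) \ H) sdiff_subset sdiff_subset
          have h2 := hhalf (C \ B) hK2
          have h3 : c * min B.card (C \ B).card ≤ c * (C \ B).card :=
            Nat.mul_le_mul_left _ (min_le_right _ _)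
          have h4 : c * (C \ B).card ≤ c * (2 * ((C \ B) \ H).card) := Nat.mul_le_mul_left _ h2
          have h5 : c * (2 * ((C \ B) \ H).card) = 2 * c * ((C \ B) \ H).card := by ring
          omega)
      obtain ⟨Y, hY, hYc, hYi⟩ := separate2 (G := G) (C := C) (t := 4 * τ) (a := a) (m := 2 * c)
        hd0.symm (sdiff_subset.trans sdiff_subset) (sdiff_subset.trans hB) hC
        (fun u hu v hv _ => by rw [cn_comm]; exact hcross v hv u hu) (by
          rw [hbtc]
          have h1 := hfew' (B \ H) ((C \ B) \ H) sdiff_subset sdiff_subset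
          have h2 := hhalf B hK1
          have h3 : c * min B.card (C \ B).card ≤ c * B.card :=
            Nat.mul_le_mul_left _ (min_le_left _ _)
          have h4 : c * B.card ≤ c * (2 * (B \ H).card) := Nat.mul_le_mul_left _ h2
          have h5 : c * (2 * (B \ H).card) = 2 * c * (B \ H).card := by ring
          omega)
      have hτ2 : 4 * (2 ^ a * s) = 2 * τ := by
        rw [hτ, pow_succ]; ring
      -- the induction hypothesis for one side
      have side : ∀ S S' Z : Finset V, S ⊆ C → S' ⊆ C → (∀ z ∈ C, z ∈ S ∨ z ∈ S') → Z ⊆ S \ H →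
          Z.card ≤ (2 * c - 1) * (a + 1) →
          (∀ v ∈ S \ H, (S'.filter fun z => G.Adj v z).card < τ) →
          (∀ I ⊆ (S \ H) \ Z, G.Far C (4 * τ) I → I.card ≤ a) →
          DecE G M ((S \ H) \ Z) (gE c P a) (eE c P a) := by
        intro S S' Z hSC hS'C hcov hZ hZc hnbS hi
        apply ih
        · exact (card_le_card ((sdiff_subset.trans sdiff_subset).trans hSC)).trans hCs
        · intro I hI hfar
          apply hi I hI
          intro u hu v hv huv
          obtain ⟨h1, h2⟩ := hfar u hu v hv huv
          refine ⟨h1, ?_⟩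
          have h3 : cn G C u v ⊆ cn G ((S \ H) \ Z) u v ∪ ((H ∪ Z) ∪
              S'.filter fun z => G.Adj u z) := by
            intro z hz
            rw [mem_cn] at hz
            rcases hcov z hz.1 with h | h
            · by_cases hzH : z ∈ H
              · exact mem_union_right _ (mem_union_left _ (mem_union_left _ hzH))
              · by_cases hzZ : z ∈ Z
                · exact mem_union_right _ (mem_union_left _ (mem_union_right _ hzZ))
                · exact mem_union_left _
                    (mem_cn.2 ⟨mem_sdiff.2 ⟨mem_sdiff.2 ⟨h, hzH⟩, hzZ⟩, hz.2⟩)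
            · exact mem_union_right _ (mem_union_right _ (mem_filter.2 ⟨h, hz.2.1⟩))
          have h4 := (card_le_card h3).trans (card_union_le _ _)
          have h5 := card_union_le (H ∪ Z) (S'.filter fun z => G.Adj u z)
          have h6 := card_union_le H Z
          have h7 := hnbS u (mem_sdiff.1 (hI hu)).1
          rw [hτ2] at h2
          omega
        · have : (2 * c - 1) * a ≤ (2 * c - 1) * (a + 1) := Nat.mul_le_mul_left _ (by omega)
          omega
      have hcov : ∀ z ∈ C, z ∈ B ∨ z ∈ C \ B := by
        intro z hz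
        by_cases h : z ∈ B
        · exact Or.inl h
        · exact Or.inr (mem_sdiff.2 ⟨hz, h⟩)
      have hD := side B (C \ B) X hB sdiff_subset hcov hX hXc hnb hXi
      have hD' := side (C \ B) B Y sdiff_subset hB (fun z hz => (hcov z hz).symm) hY hYc hnb' hYi
      set D := (B \ H) \ X with hDdef
      set D' := ((C \ B) \ H) \ Y with hD'def
      have hDD' : Disjoint D D' :=
        disjoint_of_subset_left sdiff_subset (disjoint_of_subset_right sdiff_subset hd0)
      have hDC : D ∪ D' ⊆ C := by
        apply union_subset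
        · exact (sdiff_subset.trans sdiff_subset).trans hB
        · exact (sdiff_subset.trans sdiff_subset).trans sdiff_subset
      have hrest : (C \ (D ∪ D')).card ≤ c * P + 2 * ((2 * c - 1) * (a + 1)) := by
        have h1 : C \ (D ∪ D') ⊆ (H ∪ X) ∪ Y := by
          intro z hz
          rw [mem_sdiff, mem_union, not_or, hDdef, hD'def] at hz
          simp only [mem_sdiff] at hz
          simp only [mem_union]
          by_cases h : z ∈ B
          · have := hz.2.1
            tauto
          · have := hz.2.2
            tauto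
        have h2 := (card_le_card h1).trans (card_union_le _ _)
        have h3 := card_union_le H X
        omega
      have h1 := (hD.union hD' hDD').union (decE_single (G := G) M (C \ (D ∪ D')))
        disjoint_sdiff
      rw [union_sdiff_of_subset hDC] at h1
      refine h1.mono ?_ ?_
      · simp only [gE]
        omega
      · simp only [eE]
        omega

/-- from the decomposition to the tree -/
theorem tree_of_decE [Nonempty V] {N g er : ℕ} (hN : 1 ≤ N) (hdec : DecE G (2 * N) univ g er)
    (hk : G.EdgeConnected (er + 2 * N * g)) :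
    ∃ T : Finset E, G.IsSpanningTree T ∧
      ∀ A : Finset V, N * (T ∩ G.cut A).card ≤ (G.cut A).card := by
  obtain ⟨F, R, hF, hR, hrep, ht⟩ := hdec
  have hRne : R.Nonempty := by
    obtain ⟨r, hr⟩ := hrep univ (subset_univ _) univ_nonempty (by
      intro e _
      rw [mem_cut]
      simp)
    exact ⟨r, (mem_inter.1 hr).2⟩
  have hg : 1 ≤ g := le_trans (card_pos.2 hRne) hR
  have hgN : 1 ≤ 2 * N * g := Nat.one_le_iff_ne_zero.2 (by positivity)
  have hconn : ∀ A : Finset V, A.Nonempty → A ≠ univ → (G.cut A).Nonempty := by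
    intro A hA hA'
    rw [← card_pos]
    have := hk A hA hA'
    omega
  obtain ⟨X, hX, hXc⟩ := MGraph.Rep.connect hconn (R.card - 1) F R (by omega) hrep
  obtain ⟨T, hT, htree⟩ := exists_tree (G := G) (F ∪ X) hXc
  refine ⟨T, htree, ?_⟩
  intro A
  by_cases hA : A.Nonempty ∧ A ≠ univ
  · have h1 := ht A
    have h2 := hk A hA.1 hA.2
    have h3 : (T ∩ G.cut A).card ≤ (F ∩ G.cut A).card + X.card := by
      calc (T ∩ G.cut A).card ≤ ((F ∩ G.cut A) ∪ X).card := by
            apply card_le_card
            intro e he
            rw [mem_inter] at he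
            rcases mem_union.1 (hT he.1) with h | h
            · exact mem_union_left _ (mem_inter.2 ⟨h, he.2⟩)
            · exact mem_union_right _ h
        _ ≤ _ := card_union_le _ _
    have h4 : (G.ins univ ∩ G.cut A).card ≤ (G.cut A).card := card_le_card inter_subset_right
    have h5 : X.card ≤ g := by omega
    have h6 : 2 * N * X.card ≤ 2 * N * g := Nat.mul_le_mul_left _ h5
    have h7 : 2 * N * (T ∩ G.cut A).card ≤ 2 * N * (F ∩ G.cut A).card + 2 * N * X.card := by
      rw [← mul_add]
      exact Nat.mul_le_mul_left _ h3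
    have h8 : 2 * (N * (T ∩ G.cut A).card) = 2 * N * (T ∩ G.cut A).card := by ring
    omega
  · have : G.cut A = ∅ := by
      rw [eq_empty_iff_forall_notMem]
      intro e he
      rw [mem_cut] at he
      by_cases h : A.Nonempty
      · have h' : A = univ := by
          by_contra h'
          exact hA ⟨h, h'⟩
        subst h'
        simp at he
      · rw [not_nonempty_iff_eq_empty] at h
        subst h
        simp at he
    rw [this]
    simp

/-- **Main theorem.** -/
theorem main_far (N a q : ℕ) (hN : 1 ≤ N) : ∃ k : ℕ, ∀ (V E : Type) [Fintype V] [DecidableEq V]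
    [Nonempty V] [Fintype E] [DecidableEq E] (G : MGraph V E),
    (∀ I : Finset V, (∀ u ∈ I, ∀ v ∈ I, u ≠ v → ¬ G.Adj u v ∧
      q * (cn G univ u v).card < Fintype.card V) → I.card ≤ a) → G.EdgeConnected k →
    ∃ T : Finset E, G.IsSpanningTree T ∧
      ∀ A : Finset V, N * (T ∩ G.cut A).card ≤ (G.cut A).card := by
  -- parameters
  set Q := q + 1 with hQ
  set P := 8 * (Q * 2 ^ a) with hP
  set c := 2 * N * (2 * P + 1) with hc
  set s₀ := c * P + (2 * c - 1) * a with hs₀
  set g := gE c P a + 4 * (Q * 2 ^ a) * (s₀ + 1) with hg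
  refine ⟨eE c P a + 2 * N * g, ?_⟩
  intro V E _ _ _ _ _ G hind hk
  refine tree_of_decE hN (g := g) (er := eE c P a) ?_ hk
  have hP1 : 1 ≤ P := by
    rw [hP]
    exact Nat.one_le_iff_ne_zero.2 (by positivity)
  have hQ1 : 0 < 4 * (Q * 2 ^ a) := by positivity
  set s := Fintype.card V / (4 * (Q * 2 ^ a)) with hs
  have hdiv := Nat.div_add_mod (Fintype.card V) (4 * (Q * 2 ^ a))
  have hmod := Nat.mod_lt (Fintype.card V) hQ1
  rw [← hs] at hdiv
  have hlt : Fintype.card V < 4 * (Q * 2 ^ a) * (s + 1) := by
    rw [mul_add, mul_one]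
    omega
  by_cases hss : s₀ ≤ s
  · have h1 : DecE G (2 * N) univ (gE c P a) (eE c P a) := by
      have hs1 : 1 ≤ s := by
        have : 1 ≤ c * P := by
          rw [hc]
          exact Nat.one_le_iff_ne_zero.2 (by positivity)
        omega
      refine rec_main (G := G) (s := s) (by omega) hP1 rfl hc a univ ?_ ?_ hss
      · rw [card_univ]
        have h2 : 4 * (Q * 2 ^ a) * (s + 1) ≤ 4 * (Q * 2 ^ a) * (2 * s) :=
          Nat.mul_le_mul_left _ (by omega)
        have h3 : 4 * (Q * 2 ^ a) * (2 * s) = P * s := by
          rw [hP]; ring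
        omega
      · intro I _ hI
        apply hind I
        intro u hu v hv huv
        obtain ⟨h4, h5⟩ := hI u hu v hv huv
        refine ⟨h4, ?_⟩
        have h6 : q * (cn G univ u v).card ≤ Q * (cn G univ u v).card :=
          Nat.mul_le_mul_right _ (by omega)
        have h7 : Q * (cn G univ u v).card < Q * (4 * (2 ^ a * s)) :=
          Nat.mul_lt_mul_of_pos_left h5 (by omega)
        have h8 : Q * (4 * (2 ^ a * s)) = 4 * (Q * 2 ^ a) * s := by ring
        omega
    exact h1.mono (by omega) le_rfl
  · have h1 : (univ : Finset V).card ≤ 4 * (Q * 2 ^ a) * (s₀ + 1) := by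
      rw [card_univ]
      have h2 : 4 * (Q * 2 ^ a) * (s + 1) ≤ 4 * (Q * 2 ^ a) * (s₀ + 1) :=
        Nat.mul_le_mul_left _ (by omega)
      omega
    exact (decE_single (G := G) (2 * N) univ).mono (by omega) (by omega)

end MGraph

end Pool.Agent.J6H58.TT
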